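import Pool.Agent.HSS.Defs

/-!
# Project HSK (MP_961d7e_lc): Herzog-Schoenheim for groups whose order has a large totient quotient.
Definitions.
-/

set_option autoImplicit false

namespace Pool.Agent.HSK

open Pool.Agent.HSS

/-- A set of natural numbers as it arises from the indices of the members through a point of a
partition of a perfect group into cosets of proper subgroups. -/
structure Fam (s : Finset ℕ) (J : Set ℕ) : Prop where
  ge : ∀ r ∈ J, 5 ≤ r
  supp : ∀ r ∈ J, r.primeFactors ⊆ s
  inter : ∀ r ∈ J, ∀ r' ∈ J, ¬ r.Coprime r'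

/-- The modulus `M` has the set of prime divisors `s`, with large exponents. -/
structure Mod (s : Finset ℕ) (M : ℕ) : Prop where
  pr : ∀ p ∈ s, p.Prime
  ne : M ≠ 0
  pf : M.primeFactors = s
  dvd : (∏ p ∈ s, p) ^ 4 ∣ M

/-- The condition on the set of prime divisors. -/
def Dense (s : Finset ℕ) : Prop := kap s ≤ 7 / 2 ∨ (kap s ≤ 15 / 4 ∧ 7 ∉ s)

end Pool.Agent.HSK
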