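import Pool.Agent.HSK.Lt

/-! # Project HSK, row HSK-4: families with a prime power, part 1 -/

set_option autoImplicit false

namespace Pool.Agent.HSK

open Pool.Agent.HSS

/-- If the family contains a power of the prime `p` then all members are divisible by `p`. -/
theorem fam_dvd (s : Finset ℕ) (J : Set ℕ) (h : Fam s J) (p k : ℕ) (hp : p.Prime)
    (hk : p ^ k ∈ J) : ∀ r ∈ J, p ∣ r := by
  intro r hr
  have h5 := h.inter r hr _ hk
  by_contra h6
  apply h5
  exact Nat.Coprime.pow_right k ((Nat.Prime.coprime_iff_not_dvd hp).2 h6).symm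

private theorem locA_k0 (s : Finset ℕ) (M : ℕ) (hM : Mod s M) : 0 ≤ kap s := by
  refine Finset.prod_nonneg fun p hps => ?_
  have h5 := (hM.pr p hps).two_le
  have h6 : (2 : ℝ) ≤ p := by exact_mod_cast h5
  exact div_nonneg (by linarith) (by linarith)

/-- Case A: `kap s * del M J ≤ kap s / p` (`del_mono` and `sum_om`). -/
theorem locA (s : Finset ℕ) (M : ℕ) (hM : Mod s M) (J : Set ℕ) (h : Fam s J) (p k : ℕ)
    (hp : p ∈ s) (hp5 : 5 ≤ p) (hk : p ^ k ∈ J) (hkap : kap s ≤ 15 / 4) :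
    kap s * del M J ≤ 1 := by
  classical
  have hpp := hM.pr p hp
  have hpM : p ∣ M := by
    have h1 : p ∈ M.primeFactors := by rw [hM.pf]; exact hp
    exact Nat.dvd_of_mem_primeFactors h1
  have hd := fam_dvd s J h p k hpp hk
  have hk0 := locA_k0 s M hM
  have hle : del M J ≤ 1 / (p : ℝ) := by
    rw [← sum_om M p hM.ne hpM]
    unfold del
    refine Finset.sum_le_sum_of_subset_of_nonneg ?_ fun d _ _ => om_nonneg M d
    intro d hdm
    rw [Finset.mem_filter] at hdm ⊢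
    obtain ⟨hdM, q, hq, hqd⟩ := hdm
    exact ⟨hdM, (hd q hq).trans hqd⟩
  have hp5' : (5 : ℝ) ≤ p := by exact_mod_cast hp5
  have h2 : 1 / (p : ℝ) ≤ 1 / 5 := one_div_le_one_div_of_le (by norm_num) hp5'
  have h3 := mul_le_mul_of_nonneg_left (hle.trans h2) hk0
  linarith

/-- Case B: the divisors of `M` which are multiples of members of `J` are divisible by `3` and not
equal to `3`; `kap s / 3 - 1 / 3`. -/
theorem locB (s : Finset ℕ) (M : ℕ) (hM : Mod s M) (J : Set ℕ) (h : Fam s J) (k : ℕ)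
    (hp : 3 ∈ s) (hk : 3 ^ k ∈ J) (hkap : kap s ≤ 15 / 4) :
    kap s * del M J ≤ 1 := by
  classical
  have h3P : 3 ∣ ∏ p ∈ s, p := Finset.dvd_prod_of_mem (fun p => p) hp
  have hdv : 3 * ∏ p ∈ s, p ∣ M := by
    have h2 : 3 * ∏ p ∈ s, p ∣ (∏ p ∈ s, p) * ∏ p ∈ s, p := mul_dvd_mul_right h3P _
    rw [← sq] at h2
    exact (h2.trans (pow_dvd_pow _ (by omega))).trans hM.dvd
  have h1 := kap_om s M 3 hM hdv
  have hd3 : 3 ∣ M := dvd_of_mul_right_dvd hdv
  have hS := sum_om M 3 hM.ne hd3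
  have hk0 := locA_k0 s M hM
  have hd := fam_dvd s J h 3 k Nat.prime_three hk
  set F := M.divisors.filter (fun d => 3 ∣ d) with hF
  have hm3 : 3 ∈ F := by
    rw [hF, Finset.mem_filter, Nat.mem_divisors]
    exact ⟨⟨hd3, hM.ne⟩, dvd_rfl⟩
  have e3 := Finset.add_sum_erase F (fun d => om M d) hm3
  have hle : del M J ≤ ∑ d ∈ F.erase 3, om M d := by
    unfold del
    refine Finset.sum_le_sum_of_subset_of_nonneg ?_ fun d _ _ => om_nonneg M d
    intro d hdm
    rw [Finset.mem_filter] at hdm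
    obtain ⟨hdM, q, hq, hqd⟩ := hdm
    have h5 := h.ge q hq
    have hd0 : 0 < d := Nat.pos_of_mem_divisors hdM
    have h6 := Nat.le_of_dvd hd0 hqd
    rw [Finset.mem_erase, hF, Finset.mem_filter]
    exact ⟨by omega, hdM, (hd q hq).trans hqd⟩
  have h9 := mul_le_mul_of_nonneg_left hle hk0
  have h10 : ∑ d ∈ F.erase 3, om M d = 1 / 3 - om M 3 := by
    have : ∑ d ∈ F, om M d = 1 / 3 := by
      rw [hS]
      norm_num
    linarith
  rw [h10] at h9
  norm_num at h1
  nlinarith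

end Pool.Agent.HSK
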