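import Pool.Agent.HSK.Lt
import Pool.Agent.HSK.LocA

/-! # Project HSK, row HSK-13: families with a power of `2`, without the member `6` -/

set_option autoImplicit false

namespace Pool.Agent.HSK

open Pool.Agent.HSS

/-- As `locC`. The divisors of `M` which are multiples of members of `J` are even and not equal to
`2`, `4`, `6` (and not equal to `8` in the second case): `kap s / 2 - 11 / 12 ≤ 1`,
`kap s / 2 - 25 / 24 ≤ 1`. -/
theorem locC2 (s : Finset ℕ) (M : ℕ) (hM : Mod s M) (J : Set ℕ) (h : Fam s J) (k : ℕ)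
    (hp : 2 ∈ s) (h3 : 3 ∈ s) (hk : 2 ^ k ∈ J) (h6 : 6 ∉ J)
    (hkap : kap s ≤ 23 / 6 ∨ (kap s ≤ 4 ∧ 8 ∉ J)) :
    kap s * del M J ≤ 1 := by
  classical
  have h2P : 2 ∣ ∏ p ∈ s, p := Finset.dvd_prod_of_mem (fun p => p) hp
  have h3P : 3 ∣ ∏ p ∈ s, p := Finset.dvd_prod_of_mem (fun p => p) h3
  have h6P : 6 ∣ ∏ p ∈ s, p := by
    have h := Nat.Coprime.mul_dvd_of_dvd_of_dvd (show Nat.Coprime 2 3 by norm_num) h2P h3P
    simpa using h
  have hdv : ∀ j ≤ 3, 2 ^ j * ∏ p ∈ s, p ∣ M := by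
    intro j hj
    have h1 : 2 ^ j ∣ (∏ p ∈ s, p) ^ j := pow_dvd_pow_of_dvd h2P j
    have h2 : 2 ^ j * ∏ p ∈ s, p ∣ (∏ p ∈ s, p) ^ j * ∏ p ∈ s, p := mul_dvd_mul_right h1 _
    rw [← pow_succ] at h2
    exact (h2.trans (pow_dvd_pow _ (by omega))).trans hM.dvd
  have hdv6 : 6 * ∏ p ∈ s, p ∣ M := by
    have h2 : 6 * ∏ p ∈ s, p ∣ (∏ p ∈ s, p) * ∏ p ∈ s, p := mul_dvd_mul_right h6P _
    rw [← sq] at h2
    exact (h2.trans (pow_dvd_pow _ (by omega))).trans hM.dvd
  have e1 := kap_om s M (2 ^ 1) hM (hdv 1 (by norm_num))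
  have e2 := kap_om s M (2 ^ 2) hM (hdv 2 (by norm_num))
  have e3 := kap_om s M (2 ^ 3) hM (hdv 3 (by norm_num))
  have e6 := kap_om s M 6 hM hdv6
  have hd2 : 2 ∣ M := by simpa using (dvd_of_mul_right_dvd (hdv 1 (by norm_num)))
  have hd4 : 4 ∣ M := by simpa using (dvd_of_mul_right_dvd (hdv 2 (by norm_num)))
  have hd8 : 8 ∣ M := by simpa using (dvd_of_mul_right_dvd (hdv 3 (by norm_num)))
  have hd6 : 6 ∣ M := dvd_of_mul_right_dvd hdv6
  have hS := sum_om M 2 hM.ne hd2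
  have hk0 : 0 ≤ kap s := (hsk3_kap_pos s hM.pr).le
  have hev : ∀ r ∈ J, 2 ∣ r := fam_dvd s J h 2 k Nat.prime_two hk
  have hge : ∀ r ∈ J, 5 ≤ r := h.ge
  set F := M.divisors.filter (fun d => 2 ∣ d) with hF
  have hmem : ∀ d, d ∣ M → 2 ∣ d → d ∈ F := by
    intro d hd hd'
    rw [hF, Finset.mem_filter, Nat.mem_divisors]
    exact ⟨⟨hd, hM.ne⟩, hd'⟩
  have hm2 : 2 ∈ F := hmem 2 hd2 dvd_rfl
  have hm4 : 4 ∈ F.erase 2 := Finset.mem_erase.2 ⟨by norm_num, hmem 4 hd4 (by norm_num)⟩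
  have hm6 : 6 ∈ (F.erase 2).erase 4 :=
    Finset.mem_erase.2 ⟨by norm_num, Finset.mem_erase.2 ⟨by norm_num, hmem 6 hd6 (by norm_num)⟩⟩
  have hm8 : 8 ∈ ((F.erase 2).erase 4).erase 6 :=
    Finset.mem_erase.2 ⟨by norm_num, Finset.mem_erase.2 ⟨by norm_num,
      Finset.mem_erase.2 ⟨by norm_num, hmem 8 hd8 (by norm_num)⟩⟩⟩
  have f2 := Finset.add_sum_erase F (fun d => om M d) hm2
  have f4 := Finset.add_sum_erase (F.erase 2) (fun d => om M d) hm4
  have f6 := Finset.add_sum_erase ((F.erase 2).erase 4) (fun d => om M d) hm6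
  have f8 := Finset.add_sum_erase (((F.erase 2).erase 4).erase 6) (fun d => om M d) hm8
  have hsub : ∀ d ∈ M.divisors.filter (fun d => ∃ q ∈ J, q ∣ d),
      d ∈ ((F.erase 2).erase 4).erase 6 := by
    intro d hd
    rw [Finset.mem_filter] at hd
    obtain ⟨hdM, q, hq, hqd⟩ := hd
    have h5 := hge q hq
    have hd0 : 0 < d := Nat.pos_of_mem_divisors hdM
    have h7 := Nat.le_of_dvd hd0 hqd
    have hd6' : d ≠ 6 := by
      rintro rfl
      have h8 : q = 6 := by
        have : q = 5 ∨ q = 6 := by omega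
        rcases this with rfl | rfl
        · exact absurd hqd (by decide)
        · rfl
      exact h6 (h8 ▸ hq)
    rw [Finset.mem_erase, Finset.mem_erase, Finset.mem_erase, hF, Finset.mem_filter]
    exact ⟨hd6', by omega, by omega, hdM, (hev q hq).trans hqd⟩
  have hnn : ∀ d, 0 ≤ om M d := fun d => om_nonneg M d
  have hF2 : ∑ d ∈ F, om M d = 1 / 2 := by
    rw [hS]
    norm_num
  norm_num at e1 e2 e3 e6
  rcases hkap with hc | ⟨hc, h8⟩
  · have hle : del M J ≤ ∑ d ∈ ((F.erase 2).erase 4).erase 6, om M d := by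
      unfold del
      exact Finset.sum_le_sum_of_subset_of_nonneg hsub fun d _ _ => hnn d
    have h9 := mul_le_mul_of_nonneg_left hle hk0
    have h10 : ∑ d ∈ ((F.erase 2).erase 4).erase 6, om M d
        = 1 / 2 - om M 2 - om M 4 - om M 6 := by
      linarith
    rw [h10] at h9
    nlinarith
  · have hle : del M J ≤ ∑ d ∈ (((F.erase 2).erase 4).erase 6).erase 8, om M d := by
      unfold del
      refine Finset.sum_le_sum_of_subset_of_nonneg ?_ fun d _ _ => hnn d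
      intro d hd
      rw [Finset.mem_erase]
      refine ⟨?_, hsub d hd⟩
      rintro rfl
      rw [Finset.mem_filter] at hd
      obtain ⟨hdM, q, hq, hqd⟩ := hd
      have h5 := hge q hq
      have h7 := Nat.le_of_dvd (by norm_num) hqd
      have h9 : q = 8 := by
        interval_cases q <;> first | rfl | (exfalso; revert hqd; decide)
      exact h8 (h9 ▸ hq)
    have h9 := mul_le_mul_of_nonneg_left hle hk0
    have h10 : ∑ d ∈ (((F.erase 2).erase 4).erase 6).erase 8, om M d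
        = 1 / 2 - om M 2 - om M 4 - om M 6 - om M 8 := by
      linarith
    rw [h10] at h9
    nlinarith

end Pool.Agent.HSK
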