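import Pool.Agent.HSK.Lt

/-! # Project HSK, row HSK-14: families without prime powers, `kap s ≤ 4`, without `6` and `5 ∉ s` -/

set_option autoImplicit false

namespace Pool.Agent.HSK

open Pool.Agent.HSS

/-- As `locD1`; the divisor `6` is not a multiple of a member of `J`, so
`kap s * del M J ≤ (kap s / 2 - 1 - 1 / 6) + (kap s / (2 p) - 1 / (p - 1))`, which is at most `1`
for `p = 3` and for `7 ≤ p` (as `2 / p ≤ 1 / 6 + 1 / (p - 1)`). -/
theorem locD3 (s : Finset ℕ) (M : ℕ) (hM : Mod s M) (J : Set ℕ) (h : Fam s J) (h2 : 2 ∈ s)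
    (h3 : 3 ∈ s) (h6 : 6 ∉ J) (hpp : ∀ r ∈ J, ∀ p, r.primeFactors ≠ {p}) (p : ℕ) (hp : p ∈ s)
    (hp3 : p = 3 ∨ 7 ≤ p) (r0 : ℕ) (hr0 : r0 ∈ J) (hr0' : r0.primeFactors = {2, p})
    (hkap : kap s ≤ 4) :
    kap s * del M J ≤ 1 := by
  classical
  have hpP : p.Prime := hM.pr p hp
  have hd2 : 2 ∣ M := Nat.dvd_of_mem_primeFactors (by rw [hM.pf]; exact h2)
  have hdp : p ∣ M := Nat.dvd_of_mem_primeFactors (by rw [hM.pf]; exact hp)
  have hcop : Nat.Coprime 2 p := (Nat.coprime_primes Nat.prime_two hpP).2 (by omega)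
  have hd3 : 3 ∣ M := Nat.dvd_of_mem_primeFactors (by rw [hM.pf]; exact h3)
  have hd6 : 6 ∣ M := by
    have hc : Nat.Coprime 2 3 := by norm_num
    exact hc.mul_dvd_of_dvd_of_dvd hd2 hd3
  have hd2p : 2 * p ∣ M := hcop.mul_dvd_of_dvd_of_dvd hd2 hdp
  have hk0 : 0 ≤ kap s := by
    refine Finset.prod_nonneg fun p hps => ?_
    have h5 := (hM.pr p hps).two_le
    have h6 : (2 : ℝ) ≤ p := by exact_mod_cast h5
    exact div_nonneg (by linarith) (by linarith)
  have hnn : ∀ d, 0 ≤ om M d := fun d => om_nonneg M d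
  set A := M.divisors.filter (fun d => 2 ∣ d) with hA
  set A0 := M.divisors.filter (fun d => d.primeFactors = {2}) with hA0
  set A' := insert 6 A0 with hA'
  set Dp := M.divisors.filter (fun d => p ∣ d) with hDp
  set B := Dp.filter (fun d => ¬ 2 ∣ d) with hB
  set B' := M.divisors.filter (fun d => d.primeFactors = {p}) with hB'
  have hAA : A' ⊆ A := by
    intro d hd
    rw [hA, Finset.mem_filter]
    rw [hA', Finset.mem_insert] at hd
    rcases hd with rfl | hd
    · exact ⟨Nat.mem_divisors.2 ⟨hd6, hM.ne⟩, by norm_num⟩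
    rw [hA0, Finset.mem_filter] at hd
    refine ⟨hd.1, Nat.dvd_of_mem_primeFactors ?_⟩
    rw [hd.2]
    exact Finset.mem_singleton_self 2
  have hBB : B' ⊆ B := by
    intro d hd
    rw [hB', Finset.mem_filter] at hd
    rw [hB, Finset.mem_filter, hDp, Finset.mem_filter]
    refine ⟨⟨hd.1, Nat.dvd_of_mem_primeFactors ?_⟩, fun h2d => ?_⟩
    · rw [hd.2]
      exact Finset.mem_singleton_self p
    · have h3 : 2 ∈ d.primeFactors :=
        Nat.mem_primeFactors.2 ⟨Nat.prime_two, h2d, (Nat.pos_of_mem_divisors hd.1).ne'⟩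
      rw [hd.2, Finset.mem_singleton] at h3
      omega
  have hsub : M.divisors.filter (fun d => ∃ q ∈ J, q ∣ d) ⊆ (A \ A') ∪ (B \ B') := by
    intro d hd
    rw [Finset.mem_filter] at hd
    obtain ⟨hdM, q, hq, hqd⟩ := hd
    have hd0 : d ≠ 0 := (Nat.pos_of_mem_divisors hdM).ne'
    have hq5 := h.ge q hq
    have hqne : q.primeFactors.Nonempty := by
      rw [Nat.nonempty_primeFactors]
      omega
    have hqsub : q.primeFactors ⊆ d.primeFactors := Nat.primeFactors_mono hqd hd0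
    have hnot : ∀ t, d.primeFactors ≠ {t} := by
      intro t ht
      rw [ht] at hqsub
      exact hpp q hq t ((Finset.Nonempty.subset_singleton_iff hqne).1 hqsub)
    rw [Finset.mem_union, Finset.mem_sdiff, Finset.mem_sdiff]
    by_cases h2d : 2 ∣ d
    · left
      refine ⟨?_, fun hc => ?_⟩
      · rw [hA, Finset.mem_filter]
        exact ⟨hdM, h2d⟩
      · rw [hA', Finset.mem_insert] at hc
        rcases hc with hc | hc
        · rw [hc] at hqd
          have hq6 := Nat.le_of_dvd (by norm_num) hqd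
          have hq7 : q = 5 ∨ q = 6 := by omega
          rcases hq7 with hq7 | hq7
          · rw [hq7] at hqd
            norm_num at hqd
          · exact h6 (hq7 ▸ hq)
        · rw [hA0, Finset.mem_filter] at hc
          exact hnot 2 hc.2
    · right
      have hpd : p ∣ d := by
        have hnc := h.inter q hq r0 hr0
        rw [Nat.Prime.not_coprime_iff_dvd] at hnc
        obtain ⟨t, ht, htq, htr⟩ := hnc
        have h5 := h.ge r0 hr0
        have h6 : t ∈ r0.primeFactors := Nat.mem_primeFactors.2 ⟨ht, htr, by omega⟩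
        rw [hr0', Finset.mem_insert, Finset.mem_singleton] at h6
        rcases h6 with h6 | h6
        · exact absurd ((h6 ▸ htq : 2 ∣ q).trans hqd) h2d
        · exact (h6 ▸ htq : p ∣ q).trans hqd
      refine ⟨?_, fun hc => ?_⟩
      · rw [hB, Finset.mem_filter, hDp, Finset.mem_filter]
        exact ⟨⟨hdM, hpd⟩, h2d⟩
      · rw [hB', Finset.mem_filter] at hc
        exact hnot p hc.2
  have hsA : ∑ d ∈ A, om M d = 1 / 2 := by
    have := sum_om M 2 hM.ne hd2
    rw [hA, this]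
    norm_num
  have hsDp : ∑ d ∈ Dp, om M d = 1 / (p : ℝ) := by
    rw [hDp, sum_om M p hM.ne hdp]
  have hs2p : ∑ d ∈ Dp.filter (fun d => 2 ∣ d), om M d = 1 / (2 * (p : ℝ)) := by
    have h3 := sum_om M (2 * p) hM.ne hd2p
    push_cast at h3
    rw [← h3]
    refine Finset.sum_congr ?_ fun _ _ => rfl
    ext d
    rw [Finset.mem_filter, hDp, Finset.mem_filter, Finset.mem_filter]
    constructor
    · rintro ⟨⟨h4, h5⟩, h6⟩
      exact ⟨h4, hcop.mul_dvd_of_dvd_of_dvd h6 h5⟩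
    · rintro ⟨h4, h5⟩
      exact ⟨⟨h4, dvd_of_mul_left_dvd h5⟩, dvd_of_mul_right_dvd h5⟩
  have hsB : ∑ d ∈ B, om M d = 1 / (2 * (p : ℝ)) := by
    have h3 := Finset.sum_filter_add_sum_filter_not Dp (fun d => 2 ∣ d) (fun d => om M d)
    have hp0 : (p : ℝ) ≠ 0 := by exact_mod_cast hpP.ne_zero
    have h4 : (1 : ℝ) / p = 1 / (2 * (p : ℝ)) + 1 / (2 * (p : ℝ)) := by
      field_simp
      norm_num
    rw [hsDp, hs2p, h4] at h3
    linarith
  have h6A : 6 ∉ A0 := by
    intro hc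
    rw [hA0, Finset.mem_filter] at hc
    have h7 : 3 ∈ (6 : ℕ).primeFactors :=
      Nat.mem_primeFactors.2 ⟨Nat.prime_three, by norm_num, by norm_num⟩
    rw [hc.2, Finset.mem_singleton] at h7
    omega
  have hsA' : ∑ d ∈ A', om M d = om M 6 + ∑ d ∈ A0, om M d := by
    rw [hA', Finset.sum_insert h6A]
  have hk6 : kap s * om M 6 = 1 / 6 := by
    have h7 := kap_om s M 6 hM (by
      have h8 : 2 ∣ ∏ p ∈ s, p := Finset.dvd_prod_of_mem (fun p => p) h2
      have h9 : 3 ∣ ∏ p ∈ s, p := Finset.dvd_prod_of_mem (fun p => p) h3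
      have h10 : 6 ∣ ∏ p ∈ s, p := by
        have hc : Nat.Coprime 2 3 := by norm_num
        exact hc.mul_dvd_of_dvd_of_dvd h8 h9
      refine dvd_trans ?_ hM.dvd
      calc 6 * ∏ p ∈ s, p ∣ (∏ p ∈ s, p) * ∏ p ∈ s, p := Nat.mul_dvd_mul_right h10 _
        _ = (∏ p ∈ s, p) ^ 2 := (sq _).symm
        _ ∣ (∏ p ∈ s, p) ^ 4 := pow_dvd_pow _ (by norm_num))
    rw [h7]
    norm_num
  have hA1 := Finset.sum_sdiff (f := fun d => om M d) hAA
  have hB1 := Finset.sum_sdiff (f := fun d => om M d) hBB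
  have hkA := kap_om_pow s M 2 hM h2
  have hkB := kap_om_pow s M p hM hp
  have hdel : del M J ≤ ∑ d ∈ A \ A', om M d + ∑ d ∈ B \ B', om M d := by
    unfold del
    refine (Finset.sum_le_sum_of_subset_of_nonneg hsub fun d _ _ => hnn d).trans ?_
    have h3 := Finset.sum_union_inter (s₁ := A \ A') (s₂ := B \ B') (f := fun d => om M d)
    have h4 : 0 ≤ ∑ d ∈ (A \ A') ∩ (B \ B'), om M d := Finset.sum_nonneg fun d _ => hnn d
    linarith
  have h9 := mul_le_mul_of_nonneg_left hdel hk0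
  rw [← hA0] at hkA
  rw [← hB'] at hkB
  have h10 : kap s * (∑ d ∈ A \ A', om M d + ∑ d ∈ B \ B', om M d) =
      kap s / 2 - 1 / 6 - 1 / ((2 : ℕ) - 1 : ℝ) + (kap s / (2 * (p : ℝ)) - 1 / ((p : ℝ) - 1)) := by
    rw [← hkA, ← hkB, ← hk6]
    have e1 : ∑ d ∈ A \ A', om M d = 1 / 2 - (om M 6 + ∑ d ∈ A0, om M d) := by linarith
    have e2 : ∑ d ∈ B \ B', om M d = 1 / (2 * (p : ℝ)) - ∑ d ∈ B', om M d := by linarith
    rw [e1, e2]
    ring
  rw [h10] at h9
  refine h9.trans ?_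
  have hp2 : (3 : ℝ) ≤ p := by
    have : 3 ≤ p := by omega
    exact_mod_cast this
  have hp34 : (0 : ℝ) ≤ ((p : ℝ) - 3) * ((p : ℝ) - 4) := by
    rcases hp3 with h4 | h4
    · rw [h4]
      norm_num
    · have h4' : (7 : ℝ) ≤ p := by exact_mod_cast h4
      exact mul_nonneg (by linarith) (by linarith)
  have h11 : kap s / (2 * (p : ℝ)) ≤ 2 / (p : ℝ) := by
    have h12 : kap s / (2 * (p : ℝ)) ≤ 4 / (2 * (p : ℝ)) := by
      gcongr
    have h13 : (4 : ℝ) / (2 * (p : ℝ)) = 2 / (p : ℝ) := by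
      field_simp
      norm_num
    linarith
  have h14 : 2 / (p : ℝ) ≤ 1 / 6 + 1 / ((p : ℝ) - 1) := by
    have hp0 : (0 : ℝ) < p := by linarith
    have hp1 : (0 : ℝ) < (p : ℝ) - 1 := by linarith
    rw [div_add_div _ _ (by norm_num) hp1.ne', div_le_div_iff₀ hp0 (by positivity)]
    nlinarith [hp34]
  have h15 : (1 : ℝ) / (((2 : ℕ) : ℝ) - 1) = 1 := by norm_num
  rw [h15]
  linarith

end Pool.Agent.HSK
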