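import Pool.Agent.HSK.Main
import Pool.Agent.HSK.Loc2

/-! # Project HSK: the theorem for orders with a large totient quotient -/

set_option autoImplicit false

namespace Pool.Agent.HSK

open Pool.Agent.HSS Pool.Agent.HL

theorem kap_totient (n : ℕ) : kap n.primeFactors * (n.totient : ℝ) = n := by
  have h1 := Nat.totient_eq_mul_prod_factors n
  have h2 : ((n.totient : ℚ) : ℝ) = ((n * ∏ p ∈ n.primeFactors, (1 - (p : ℚ)⁻¹) : ℚ) : ℝ) := by
    rw [h1]
  push_cast at h2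
  rw [h2]
  unfold kap
  rw [mul_left_comm, ← Finset.prod_mul_distrib]
  rw [Finset.prod_eq_one, mul_one]
  intro p hp
  have hp1 : (1 : ℝ) < p := by exact_mod_cast (Nat.prime_of_mem_primeFactors hp).one_lt
  have hp2 : (p : ℝ) - 1 ≠ 0 := by linarith
  field_simp

/-- The Herzog-Schoenheim statement for the finite groups `G` of even order `n` such that
`φ(n) / n ≥ 2 / 7`, or `7 ∤ n` and `φ(n) / n ≥ 4 / 15`, or `3 ∣ n`, `5 ∤ n` and `φ(n) / n ≥ 6 / 23`,
or `3 ∣ n`, `5 ∤ n`, `7 ∤ n` and `φ(n) / n ≥ 1 / 4`. -/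
theorem hs_totient (G : Type) [Group G] [Finite G] (n : ℕ) (hn : Nat.card G = n) (h2 : 2 ∣ n)
    (h : 2 * n ≤ 7 * n.totient ∨ (¬ 7 ∣ n ∧ 4 * n ≤ 15 * n.totient) ∨
      (3 ∣ n ∧ ¬ 5 ∣ n ∧ 6 * n ≤ 23 * n.totient) ∨
      (3 ∣ n ∧ ¬ 5 ∣ n ∧ ¬ 7 ∣ n ∧ n ≤ 4 * n.totient)) : HS G := by
  subst hn
  have hne : Nat.card G ≠ 0 := Nat.card_pos.ne'
  have h1G : Nat.card G ≠ 1 := by
    intro h1
    rw [h1] at h2
    norm_num at h2
  set n := Nat.card G with hn
  have hmem : ∀ p : ℕ, p.Prime → (p ∈ n.primeFactors ↔ p ∣ n) := fun p hp => by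
    rw [Nat.mem_primeFactors]
    exact ⟨fun h => h.2.1, fun h => ⟨hp, h, hne⟩⟩
  have h2s : 2 ∈ n.primeFactors := (hmem 2 Nat.prime_two).2 h2
  have hkt := kap_totient n
  have htp : (0 : ℝ) < n.totient := by
    exact_mod_cast Nat.totient_pos.2 (Nat.pos_of_ne_zero hne)
  have key : ∀ a b : ℕ, 0 < a → a * n ≤ b * n.totient → kap n.primeFactors ≤ (b : ℝ) / a := by
    intro a b ha hab
    have h3 : ((a * n : ℕ) : ℝ) ≤ ((b * n.totient : ℕ) : ℝ) := by exact_mod_cast hab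
    push_cast at h3
    rw [← hkt, ← mul_assoc] at h3
    have h4 := le_of_mul_le_mul_right h3 htp
    have ha' : (0 : ℝ) < a := by exact_mod_cast ha
    rw [le_div_iff₀ ha', mul_comm]
    exact h4
  refine hs_of_loc G h1G fun M J hM hJ h6 h8 => ?_
  rcases h with h | ⟨h7, h⟩ | ⟨h3, h5, h⟩ | ⟨h3, h5, h7, h⟩
  · refine loc_all _ M hM J hJ h2s (Or.inl ?_)
    have := key 2 7 (by norm_num) h
    norm_num at this
    exact this
  · refine loc_all _ M hM J hJ h2s (Or.inr ⟨?_, ?_⟩)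
    · have := key 4 15 (by norm_num) h
      norm_num at this
      exact this
    · intro h9
      exact h7 ((hmem 7 (by norm_num)).1 (h8 h9))
  · have h5' : 5 ∉ n.primeFactors := fun h9 => h5 ((hmem 5 (by norm_num)).1 h9)
    refine loc_all2 _ M hM J hJ h2s ((hmem 3 (by norm_num)).2 h3) h5' (fun h9 => h5' (h6 h9))
      (Or.inl ?_)
    have := key 6 23 (by norm_num) h
    norm_num at this
    exact this
  · have h5' : 5 ∉ n.primeFactors := fun h9 => h5 ((hmem 5 (by norm_num)).1 h9)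
    refine loc_all2 _ M hM J hJ h2s ((hmem 3 (by norm_num)).2 h3) h5' (fun h9 => h5' (h6 h9))
      (Or.inr ⟨?_, ?_⟩)
    · have := key 1 4 (by norm_num) (by simpa using h)
      norm_num at this
      exact this
    · intro h9
      exact h7 ((hmem 7 (by norm_num)).1 (h8 h9))

end Pool.Agent.HSK
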