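import Pool.Agent.HSK.Perf
import Mathlib.GroupTheory.GroupAction.Jordan

/-! # Project HSK, row HSK-9: no subgroup of index 8 -/

set_option autoImplicit false

namespace Pool.Agent.HSK

open MulAction

/-- A primitive group of degree `8` that contains a cycle moving less than `8` points is
`2`-transitive (Jordan), so its order is a multiple of `7`. -/
private theorem hsk9_two {α : Type} [Fintype α] [DecidableEq α] {G : Subgroup (Equiv.Perm α)}
    (h8 : Nat.card α = 8) (hG : IsPreprimitive G α) {g : Equiv.Perm α}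
    (hgc : g.IsCycle) (hg : g ∈ G) (hs : g.support.card < 8) : 7 ∣ Nat.card G := by
  have h2 : 2 ≤ g.support.card := hgc.two_le_card_support
  obtain ⟨n, hn⟩ : ∃ n, 8 = g.support.card + (n + 1) := ⟨8 - g.support.card - 1, by omega⟩
  have hsc : Set.ncard ((g.support : Set α)ᶜ) = n + 1 := by
    have h := Set.ncard_add_ncard_compl (g.support : Set α)
    rw [Set.ncard_coe_finset, h8] at h
    omega
  have h3 := hG.is_two_pretransitive hsc (by omega)
    (Equiv.Perm.isPretransitive_of_isCycle_mem hgc hg)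
  obtain ⟨a, b, hab⟩ : ∃ a b : α, a ≠ b := by
    have : Nontrivial α := by
      rw [← Finite.one_lt_card_iff_nontrivial, h8]
      norm_num
    exact exists_pair_ne α
  have h4 := h3.index_of_fixingSubgroup_mul (s := {a, b}) (Set.ncard_pair hab)
  rw [h8] at h4
  have h5 : (fixingSubgroup G ({a, b} : Set α)).index = 56 := by
    have h6 : (8 - 2).factorial = 720 := rfl
    have h7 : Nat.factorial 8 = 40320 := rfl
    rw [h6, h7] at h4
    omega
  have h6 := Subgroup.index_dvd_card (fixingSubgroup G ({a, b} : Set α))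
  rw [h5] at h6
  exact dvd_trans (by norm_num) h6

/-- A permutation group of degree `8` whose order is a multiple of `9` contains a `3`-cycle. -/
private theorem hsk9_three {α : Type} [Fintype α] [DecidableEq α] {G : Subgroup (Equiv.Perm α)}
    (h8 : Nat.card α = 8) (h9 : 9 ∣ Nat.card G) : ∃ g ∈ G, g.IsThreeCycle := by
  have : Fact (Nat.Prime 3) := ⟨Nat.prime_three⟩
  obtain ⟨Q, hQ⟩ := Sylow.exists_subgroup_card_pow_prime (G := G) 3 (n := 2) h9
  have hQ' : Nat.card (Q.map G.subtype) = 3 ^ 2 := by
    rw [← hQ]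
    exact Nat.card_congr (Q.equivMapOfInjective G.subtype G.subtype_injective).toEquiv.symm
  have hcard : Nat.card (Equiv.Perm α) = 40320 := by
    rw [Nat.card_perm, h8]
    rfl
  have hfac : (Nat.card (Equiv.Perm α)).factorization 3 = 2 := by
    rw [hcard, show (40320 : ℕ) = 3 ^ 2 * 4480 by norm_num, Nat.factorization_mul (by norm_num)
      (by norm_num), Nat.Prime.factorization_pow Nat.prime_three]
    simp only [Finsupp.add_apply, Finsupp.single_eq_same]
    rw [Nat.factorization_eq_zero_of_not_dvd (by norm_num)]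
  let Q1 : Sylow 3 (Equiv.Perm α) := Sylow.ofCard (Q.map G.subtype) (by rw [hfac, hQ'])
  obtain ⟨c, hc⟩ : ∃ c : Equiv.Perm α, c.IsThreeCycle := by
    have h3 : 2 < Fintype.card α := by
      rw [← Nat.card_eq_fintype_card, h8]
      norm_num
    obtain ⟨a, b, c, hab, hac, hbc⟩ := Fintype.two_lt_card_iff.mp h3
    exact ⟨_, Equiv.Perm.isThreeCycle_swap_mul_swap_same hab hac hbc⟩
  have hz : IsPGroup 3 (Subgroup.zpowers c) := by
    apply IsPGroup.of_card (n := 1)
    rw [Nat.card_zpowers, hc.orderOf, pow_one]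
  obtain ⟨Q0, hQ0⟩ := hz.exists_le_sylow
  obtain ⟨t, ht⟩ := MulAction.exists_smul_eq (Equiv.Perm α) Q0 Q1
  have h1 : t * c * t⁻¹ ∈ (Q1 : Subgroup (Equiv.Perm α)) := by
    rw [← ht, Sylow.coe_subgroup_smul]
    exact Subgroup.smul_mem_pointwise_smul c (MulAut.conj t) _ (hQ0 (Subgroup.mem_zpowers c))
  have h2 : t * c * t⁻¹ ∈ Q.map G.subtype := h1
  obtain ⟨w, _, hw⟩ := Subgroup.mem_map.mp h2
  refine ⟨t * c * t⁻¹, ?_, ?_⟩
  · rw [← hw]
    exact w.2
  · unfold Equiv.Perm.IsThreeCycle
    rw [Equiv.Perm.cycleType_conj]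
    exact hc

private theorem hsk9_num (m : ℕ) (h : m ∣ 40320) (h2 : ¬ 2 ∣ m) (h5 : ¬ 5 ∣ m) (h7 : ¬ 7 ∣ m)
    (h9 : ¬ 9 ∣ m) : m < 5 := by
  have h1 : m ∣ 315 := by
    have h3 : Nat.Coprime m (2 ^ 7) :=
      Nat.Coprime.pow_right 7 ((Nat.Prime.coprime_iff_not_dvd Nat.prime_two).mpr h2).symm
    have h4 : m ∣ 2 ^ 7 * 315 := by
      have : (2 ^ 7 * 315 : ℕ) = 40320 := by norm_num
      rw [this]
      exact h
    exact h3.dvd_of_dvd_mul_left h4
  have h3 : Nat.Coprime m 5 := ((Nat.Prime.coprime_iff_not_dvd (by norm_num)).mpr h5).symm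
  have h4 : Nat.Coprime m 7 := ((Nat.Prime.coprime_iff_not_dvd (by norm_num)).mpr h7).symm
  have h6 : m ∣ 5 * 63 := h1
  have h10 : m ∣ 7 * 9 := h3.dvd_of_dvd_mul_left h6
  have h11 : m ∣ 9 := h4.dvd_of_dvd_mul_left h10
  by_contra hlt
  have h12 : m ≤ 9 := Nat.le_of_dvd (by norm_num) h11
  have h13 : 5 ≤ m := by omega
  interval_cases m <;> omega

/-- The action on `R ⧸ S` (`8` points) is primitive: a block of size `2` or `4` would give a proper
subgroup of index `4` or `2`. Let `P` be the image in the symmetric group, a perfect group. If `P`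
contains a `3`-cycle or a `5`-cycle then `P` is doubly transitive (Jordan), `7 ∣ |P| ∣ |R|`.
Otherwise `5` and `9` do not divide `|P|` (a Sylow `3`-subgroup of the symmetric group of degree `8`
has order `9` and contains a `3`-cycle), so a Sylow `2`-subgroup of `P` has index at most `3`, so it
is `P`, and a perfect `2`-group is trivial. -/
theorem index_ne_eight (R : Type) [Group R] [Finite R] (hR : commutator R = ⊤)
    (h7 : ¬ 7 ∣ Nat.card R) (S : Subgroup R) : S.index ≠ 8 := by
  classical
  intro h8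
  have hft : Fintype (R ⧸ S) := Fintype.ofFinite _
  have hc8 : Nat.card (R ⧸ S) = 8 := h8
  have hnt : Nontrivial (R ⧸ S) := by
    rw [← Finite.one_lt_card_iff_nontrivial, hc8]
    norm_num
  have hco : IsCoatom S := by
    refine ⟨?_, ?_⟩
    · rintro rfl
      rw [Subgroup.index_top] at h8
      omega
    · intro T hT
      by_contra hTne
      have h5 := perf_index R hR T hTne
      have h6 : T.index ∣ 8 := h8 ▸ Subgroup.index_dvd_of_le hT.le
      have h9 : T.index = 8 := by
        have h10 := Nat.le_of_dvd (by norm_num) h6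
        generalize T.index = k at h5 h6 h10
        interval_cases k <;> omega
      have h10 := Subgroup.relIndex_mul_index hT.le
      rw [h9, h8] at h10
      have h11 : S.relIndex T = 1 := by omega
      exact hT.not_ge (Subgroup.relIndex_eq_one.mp h11)
  have hprim : IsPreprimitive R (R ⧸ S) := by
    rw [← isCoatom_stabilizer_iff_preprimitive R ((1 : R) : R ⧸ S), MulAction.stabilizer_quotient]
    exact hco
  set f : R →* Equiv.Perm (R ⧸ S) := toPermHom R (R ⧸ S) with hf
  have hPp : IsPreprimitive f.range (R ⧸ S) := by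
    let φ : (R ⧸ S) →ₑ[f.rangeRestrict] (R ⧸ S) :=
      { toFun := id
        map_smul' := fun _ _ => rfl }
    exact IsPreprimitive.of_surjective (f := φ) Function.surjective_id
  have hdvd : Nat.card f.range ∣ Nat.card R := Subgroup.card_range_dvd f
  have h7P : ¬ 7 ∣ Nat.card f.range := fun h => h7 (h.trans hdvd)
  have h9P : ¬ 9 ∣ Nat.card f.range := by
    intro h
    obtain ⟨g, hg, h3⟩ := hsk9_three hc8 h
    exact h7P (hsk9_two hc8 hPp h3.isCycle hg (by rw [h3.card_support]; norm_num))
  have h5P : ¬ 5 ∣ Nat.card f.range := by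
    intro h
    have : Fact (Nat.Prime 5) := ⟨Nat.prime_five⟩
    obtain ⟨x, hx⟩ := exists_prime_orderOf_dvd_card' 5 h
    have hx' : orderOf (x : Equiv.Perm (R ⧸ S)) = 5 := by rw [Subgroup.orderOf_coe, hx]
    have hcyc : (x : Equiv.Perm (R ⧸ S)).IsCycle := by
      apply Equiv.Perm.isCycle_of_prime_order' (by rw [hx']; exact Nat.prime_five)
      rw [hx', ← Nat.card_eq_fintype_card, hc8]
      norm_num
    exact h7P (hsk9_two hc8 hPp hcyc x.2 (by rw [← hcyc.orderOf, hx']; norm_num))
  have hcP : commutator f.range = ⊤ := by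
    have hs : (⊤ : Subgroup R).map f.rangeRestrict = ⊤ :=
      Subgroup.map_top_of_surjective _ f.rangeRestrict_surjective
    rw [commutator_def, ← hs, ← Subgroup.map_commutator, ← commutator_def, hR]
  have : Fact (Nat.Prime 2) := ⟨Nat.prime_two⟩
  obtain ⟨Q⟩ : Nonempty (Sylow 2 f.range) := inferInstance
  have hQi : Q.index ∣ Nat.card f.range := Subgroup.index_dvd_card _
  have hQ2 : ¬ 2 ∣ Q.index := Q.not_dvd_index
  have hcard : Nat.card (Equiv.Perm (R ⧸ S)) = 40320 := by
    rw [Nat.card_perm, hc8]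
    rfl
  have hQ5 : Q.index < 5 := by
    apply hsk9_num
    · exact hQi.trans (hcard ▸ Subgroup.card_subgroup_dvd_card f.range)
    · exact hQ2
    · exact fun h => h5P (h.trans hQi)
    · exact fun h => h7P (h.trans hQi)
    · exact fun h => h9P (h.trans hQi)
  have hQt : (Q : Subgroup f.range) = ⊤ := by
    by_contra hne
    have := perf_index f.range hcP Q hne
    omega
  have hpg : IsPGroup 2 f.range := by
    have h := Q.isPGroup'
    rw [hQt] at h
    exact h.of_equiv Subgroup.topEquiv
  have hnil := hpg.isNilpotent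
  have hsol : Group.IsSolvable f.range := inferInstance
  have hntP : Nontrivial f.range := by
    by_contra hcon
    rw [not_nontrivial_iff_subsingleton] at hcon
    obtain ⟨a, b, hab⟩ := exists_pair_ne (R ⧸ S)
    obtain ⟨g, hg⟩ := MulAction.exists_smul_eq f.range a b
    apply hab
    rw [← hg, Subsingleton.elim g 1, one_smul]
  have := Group.IsSolvable.commutator_lt_top_of_nontrivial f.range
  exact this.ne hcP

end Pool.Agent.HSK
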