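import Pool.Agent.HSK.Zm
import Pool.Agent.HSS.Rog
import Pool.Agent.HL.Wts

/-! # Project HSK, row HSK-2: the local criterion -/

set_option autoImplicit false

namespace Pool.Agent.HSK

open Pool.Agent.HSS

/-- fibres of a set in a product of finite types -/
theorem lc_prod_le {A B : Type} [Finite A] [Finite B] (S : Set (A × B)) (X : Set A) (b : ℝ)
    (h1 : ∀ x ∈ X, ({n : B | (x, n) ∈ S}.ncard : ℝ) ≤ b) (h0 : ∀ q ∈ S, q.1 ∈ X) :
    (S.ncard : ℝ) ≤ X.ncard * b := by
  classical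
  have _iA : Fintype A := Fintype.ofFinite A
  have _iB : Fintype B := Fintype.ofFinite B
  have h2 : S.ncard = ∑ x ∈ X.toFinset, {n : B | (x, n) ∈ S}.ncard := by
    have h3 : S.toFinset = X.toFinset.biUnion
        (fun x => (Finset.univ.filter (fun n : B => (x, n) ∈ S)).image (fun n => (x, n))) := by
      ext ⟨x, n⟩
      simp only [Set.mem_toFinset, Finset.mem_biUnion, Finset.mem_image, Finset.mem_filter,
        Finset.mem_univ, true_and, Prod.mk.injEq]
      constructor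
      · intro h
        exact ⟨x, h0 _ h, n, h, rfl, rfl⟩
      · rintro ⟨x', -, n', h, rfl, rfl⟩
        exact h
    rw [Set.ncard_eq_toFinset_card', h3, Finset.card_biUnion]
    · refine Finset.sum_congr rfl fun x _ => ?_
      rw [Finset.card_image_of_injective _ (fun n n' h => (Prod.mk.inj h).2),
        Set.ncard_eq_toFinset_card']
      congr 1
      ext n
      simp
    · intro x _ x' _ hxx
      rw [Function.onFun, Finset.disjoint_left]
      intro q hq hq'
      simp only [Finset.mem_image, Finset.mem_filter, Finset.mem_univ, true_and] at hq hq'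
      obtain ⟨n, -, rfl⟩ := hq
      obtain ⟨n', -, h⟩ := hq'
      exact hxx (Prod.mk.inj h).1.symm
  rw [h2, Nat.cast_sum]
  calc ∑ x ∈ X.toFinset, ({n : B | (x, n) ∈ S}.ncard : ℝ) ≤ ∑ _x ∈ X.toFinset, b :=
        Finset.sum_le_sum fun x hx => h1 x (Set.mem_toFinset.1 hx)
    _ = X.ncard * b := by
        rw [Finset.sum_const, nsmul_eq_mul, Set.ncard_eq_toFinset_card']

/-- the full preimage of `X` is contained in `W` -/
theorem lc_pre {G : Type} [Group G] [Finite G] (R : Subgroup G) (X : Set (G ⧸ R)) (W : Set G)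
    (h : ∀ g : G, (g : G ⧸ R) ∈ X → g ∈ W) :
    (X.ncard : ℝ) / Nat.card (G ⧸ R) ≤ mu W := by
  classical
  have hR : (0 : ℝ) < Nat.card R := by exact_mod_cast Nat.card_pos
  have hGR : (0 : ℝ) < Nat.card (G ⧸ R) := by exact_mod_cast Nat.card_pos
  have hG : (Nat.card G : ℝ) = Nat.card (G ⧸ R) * Nat.card R := by
    rw [R.card_eq_card_quotient_mul_card_subgroup]
    push_cast
    rfl
  have h1 : X.ncard * Nat.card R ≤ W.ncard := by
    rw [← Nat.card_coe_set_eq, ← Nat.card_coe_set_eq, ← Nat.card_prod]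
    refine Nat.card_le_card_of_injective
      (fun q : X × R => (⟨Quotient.out (q.1 : G ⧸ R) * (q.2 : G), ?_⟩ : W)) ?_
    · apply h
      rw [QuotientGroup.mk_mul_of_mem _ q.2.2]
      have : ((Quotient.out (q.1 : G ⧸ R) : G) : G ⧸ R) = q.1 := QuotientGroup.out_eq' _
      rw [this]
      exact q.1.2
    · rintro ⟨⟨x, hx⟩, n⟩ ⟨⟨x', hx'⟩, n'⟩ hq
      have h2 : Quotient.out x * (n : G) = Quotient.out x' * (n' : G) := congrArg Subtype.val hq
      have h3 : x = x' := by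
        have h4 := congrArg (fun g : G => (g : G ⧸ R)) h2
        simp only [QuotientGroup.mk_mul_of_mem _ n.2, QuotientGroup.mk_mul_of_mem _ n'.2,
          QuotientGroup.out_eq'] at h4
        exact h4
      subst h3
      have h5 : n = n' := Subtype.ext (mul_left_cancel h2)
      subst h5
      rfl
  unfold mu
  rw [hG, div_le_div_iff₀ hGR (mul_pos hGR hR)]
  have h2 : (X.ncard : ℝ) * Nat.card R ≤ W.ncard := by exact_mod_cast h1
  calc (X.ncard : ℝ) * (Nat.card (G ⧸ R) * Nat.card R)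
      = (X.ncard * Nat.card R) * Nat.card (G ⧸ R) := by ring
    _ ≤ W.ncard * Nat.card (G ⧸ R) := by gcongr

/-- Rogers' inequality `rogers` for the solvable group `(G ⧸ R) × Multiplicative (ZMod M)`, the
subtype of `U` and the products of the image of `H i` and the multiples of `r i`,
`r i = (H i).relIndex R`; the index of this subgroup is `(H i ⊔ R).index * r i = (H i).index`
(`Pool.Agent.HL.index_mul`). The measure of the union: for each `x : G ⧸ R` the proportion of the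
`n` is `0` if `x` is in no `C i`, and otherwise it is at most `c` (`card_mult` and `hloc` for a
representative); the set of the other `x` has measure at most `mu W` (its preimage in `G` is in
`W`). -/
theorem lc {G : Type} [Group G] [Finite G] (R : Subgroup G) [R.Normal]
    (hsol : Group.IsSolvable (G ⧸ R)) {ι : Type} [Fintype ι] (H : ι → Subgroup G) (a : ι → G)
    (U : Finset ι) (M : ℕ) (hM : M ≠ 0) (hr : ∀ i ∈ U, (H i).relIndex R ∣ M) (c : ℝ) (hc : 0 ≤ c)
    (W : Set G) (hW : ∀ i ∈ U, ∀ g, (a i)⁻¹ * g ∈ H i ⊔ R → g ∈ W)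
    (hloc : ∀ g ∈ W,
      del M {r | ∃ i ∈ U, (a i)⁻¹ * g ∈ H i ⊔ R ∧ r = (H i).relIndex R} ≤ c) :
    del M {x | ∃ i ∈ U, x = (H i).index} ≤ c * mu W := by
  classical
  have _iM : NeZero M := ⟨hM⟩
  have hM0 : (0 : ℝ) < M := by exact_mod_cast Nat.pos_of_ne_zero hM
  -- the subgroups of the product
  obtain ⟨K, hK⟩ : ∃ K : {i // i ∈ U} → Subgroup ((G ⧸ R) × Multiplicative (ZMod M)),
      K = fun i : {i // i ∈ U} => ((H i.1).map (QuotientGroup.mk' R)).prod
        (AddSubgroup.toSubgroup (AddSubgroup.zmultiples (((H i.1).relIndex R : ℕ) : ZMod M))) :=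
    ⟨_, rfl⟩
  obtain ⟨b, hb⟩ : ∃ b : {i // i ∈ U} → (G ⧸ R) × Multiplicative (ZMod M),
      b = fun i : {i // i ∈ U} => (((a i.1 : G) : G ⧸ R), 1) := ⟨_, rfl⟩
  have hmem : ∀ g x : G, ∀ i : ι, ((x : G ⧸ R)⁻¹ * (g : G ⧸ R) ∈ (H i).map (QuotientGroup.mk' R)) ↔
      x⁻¹ * g ∈ H i ⊔ R := by
    intro g x i
    have h1 : (x : G ⧸ R)⁻¹ * (g : G ⧸ R) = QuotientGroup.mk' R (x⁻¹ * g) := by
      rw [map_mul, map_inv]
      rfl
    rw [h1, ← Subgroup.mem_comap, Subgroup.comap_map_eq, QuotientGroup.ker_mk']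
  have hidx : ∀ i : {i // i ∈ U}, (K i).index = (H i).index := by
    intro i
    rw [hK]
    simp only
    rw [Subgroup.index_prod, AddSubgroup.index_toSubgroup, zm_index M _ (hr i i.2),
      Subgroup.index_map, QuotientGroup.ker_mk', QuotientGroup.range_mk', Subgroup.index_top,
      mul_one, ← Pool.Agent.HL.index_mul]
  have hset : {x | ∃ i ∈ U, x = (H i).index} = {x | ∃ i : {i // i ∈ U}, x = (K i).index} := by
    ext x
    constructor
    · rintro ⟨i, hi, rfl⟩
      exact ⟨⟨i, hi⟩, (hidx ⟨i, hi⟩).symm⟩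
    · rintro ⟨i, rfl⟩
      exact ⟨i, i.2, hidx i⟩
  rw [hset]
  refine (rogers ((G ⧸ R) × Multiplicative (ZMod M)) K b M hM).trans ?_
  -- the support
  obtain ⟨X, hX⟩ : ∃ X : Set (G ⧸ R), X = {x | ∃ i ∈ U, (a i : G ⧸ R)⁻¹ * x ∈
      (H i).map (QuotientGroup.mk' R)} := ⟨_, rfl⟩
  have hXW : ∀ g : G, (g : G ⧸ R) ∈ X → g ∈ W := by
    intro g hg
    rw [hX] at hg
    obtain ⟨i, hi, h⟩ := hg
    exact hW i hi g ((hmem g (a i) i).1 h)
  have hS : ∀ (g : G) (n : ZMod M), ((g : G ⧸ R), Multiplicative.ofAdd n) ∈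
      {g | ∃ i, (b i)⁻¹ * g ∈ K i} ↔
      ∃ i ∈ U, (a i)⁻¹ * g ∈ H i ⊔ R ∧ (H i).relIndex R ∣ n.val := by
    intro g n
    constructor
    · rintro ⟨i, h⟩
      rw [hK, hb] at h
      simp only [Prod.inv_mk, inv_one, Prod.mk_mul_mk, one_mul, Subgroup.mem_prod] at h
      refine ⟨i, i.2, (hmem g (a i) i).1 h.1, ?_⟩
      exact (zm_mem M _ (hr i i.2) n).1 h.2
    · rintro ⟨i, hi, h1, h2⟩
      refine ⟨⟨i, hi⟩, ?_⟩
      rw [hK, hb]
      simp only [Prod.inv_mk, inv_one, Prod.mk_mul_mk, one_mul, Subgroup.mem_prod]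
      exact ⟨(hmem g (a i) i).2 h1, (zm_mem M _ (hr i hi) n).2 h2⟩
  have hcard := lc_prod_le {g | ∃ i, (b i)⁻¹ * g ∈ K i} X (c * M) ?_ ?_
  · have hGR : (0 : ℝ) < Nat.card (G ⧸ R) := by exact_mod_cast Nat.card_pos
    have h5 := lc_pre R X W hXW
    rw [div_le_iff₀ hGR] at h5
    unfold mu at h5 ⊢
    have hc1 : Nat.card ((G ⧸ R) × Multiplicative (ZMod M)) = Nat.card (G ⧸ R) * M := by
      rw [Nat.card_prod]
      congr 1
      exact Nat.card_zmod M
    rw [hc1, Nat.cast_mul, div_le_iff₀ (mul_pos hGR hM0)]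
    refine hcard.trans ?_
    calc (X.ncard : ℝ) * (c * M) ≤ ((W.ncard : ℝ) / Nat.card G * Nat.card (G ⧸ R)) * (c * M) := by
          gcongr
      _ = c * ((W.ncard : ℝ) / Nat.card G) * (Nat.card (G ⧸ R) * M) := by ring
  · intro x hx
    obtain ⟨g, rfl⟩ := QuotientGroup.mk_surjective x
    have hg := hXW g hx
    have h6 := hloc g hg
    rw [← card_mult M _ (by rintro r ⟨i, hi, -, rfl⟩; exact hr i hi), div_le_iff₀ hM0] at h6
    refine le_trans (le_of_eq ?_) h6
    congr 1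
    have h7 : {n : Multiplicative (ZMod M) | ((g : G ⧸ R), n) ∈ {g | ∃ i, (b i)⁻¹ * g ∈ K i}} =
        Multiplicative.ofAdd '' {n : ZMod M | ∃ r ∈ {r | ∃ i ∈ U, (a i)⁻¹ * g ∈ H i ⊔ R ∧
          r = (H i).relIndex R}, r ∣ n.val} := by
      ext n
      constructor
      · intro h
        obtain ⟨i, hi, h1, h2⟩ := (hS g (Multiplicative.toAdd n)).1 h
        exact ⟨Multiplicative.toAdd n, ⟨_, ⟨i, hi, h1, rfl⟩, h2⟩, rfl⟩
      · rintro ⟨n', ⟨r, ⟨i, hi, h1, rfl⟩, h2⟩, rfl⟩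
        exact (hS g n').2 ⟨i, hi, h1, h2⟩
    rw [h7, Set.ncard_image_of_injective _ Multiplicative.ofAdd.injective]
  · rintro ⟨x, n⟩ hq
    obtain ⟨g, rfl⟩ := QuotientGroup.mk_surjective x
    obtain ⟨i, hi, h1, -⟩ := (hS g (Multiplicative.toAdd n)).1 hq
    rw [hX]
    exact ⟨i, hi, (hmem g (a i) i).2 h1⟩

end Pool.Agent.HSK
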