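import Pool.Agent.HSK.Lt

/-! # Project HSK, row HSK-5: families with a power of `2` -/

set_option autoImplicit false

namespace Pool.Agent.HSK

open Pool.Agent.HSS

/-- Case C: the divisors of `M` which are multiples of members of `J` are even and not equal to
`2`, `4` (and not equal to `8` in the second case); `kap s / 2 - 3 / 4`, `kap s / 2 - 7 / 8`. -/
theorem locC (s : Finset ℕ) (M : ℕ) (hM : Mod s M) (J : Set ℕ) (h : Fam s J) (k : ℕ)
    (hp : 2 ∈ s) (hk : 2 ^ k ∈ J) (hkap : kap s ≤ 7 / 2 ∨ (kap s ≤ 15 / 4 ∧ 8 ∉ J)) :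
    kap s * del M J ≤ 1 := by
  classical
  have h2P : 2 ∣ ∏ p ∈ s, p := Finset.dvd_prod_of_mem (fun p => p) hp
  have hdv : ∀ j ≤ 3, 2 ^ j * ∏ p ∈ s, p ∣ M := by
    intro j hj
    have h1 : 2 ^ j ∣ (∏ p ∈ s, p) ^ j := pow_dvd_pow_of_dvd h2P j
    have h2 : 2 ^ j * ∏ p ∈ s, p ∣ (∏ p ∈ s, p) ^ j * ∏ p ∈ s, p := mul_dvd_mul_right h1 _
    rw [← pow_succ] at h2
    exact (h2.trans (pow_dvd_pow _ (by omega))).trans hM.dvd
  have h1 := kap_om s M (2 ^ 1) hM (hdv 1 (by norm_num))
  have h2 := kap_om s M (2 ^ 2) hM (hdv 2 (by norm_num))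
  have h3 := kap_om s M (2 ^ 3) hM (hdv 3 (by norm_num))
  have hd2 : 2 ∣ M := by simpa using (dvd_of_mul_right_dvd (hdv 1 (by norm_num)))
  have hd4 : 4 ∣ M := by simpa using (dvd_of_mul_right_dvd (hdv 2 (by norm_num)))
  have hd8 : 8 ∣ M := by simpa using (dvd_of_mul_right_dvd (hdv 3 (by norm_num)))
  have hS := sum_om M 2 hM.ne hd2
  have hk0 : 0 ≤ kap s := by
    refine Finset.prod_nonneg fun p hps => ?_
    have h5 := (hM.pr p hps).two_le
    have h6 : (2 : ℝ) ≤ p := by exact_mod_cast h5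
    exact div_nonneg (by linarith) (by linarith)
  have hev : ∀ r ∈ J, 2 ∣ r := by
    intro r hr
    have h5 := h.inter r hr _ hk
    by_contra h6
    apply h5
    exact Nat.Coprime.pow_right k ((Nat.Prime.coprime_iff_not_dvd Nat.prime_two).2 h6).symm
  have hge : ∀ r ∈ J, 5 ≤ r := h.ge
  set F := M.divisors.filter (fun d => 2 ∣ d) with hF
  have hm2 : 2 ∈ F := by
    rw [hF, Finset.mem_filter, Nat.mem_divisors]
    exact ⟨⟨hd2, hM.ne⟩, dvd_rfl⟩
  have hm4 : 4 ∈ F.erase 2 := by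
    rw [Finset.mem_erase, hF, Finset.mem_filter, Nat.mem_divisors]
    exact ⟨by norm_num, ⟨hd4, hM.ne⟩, by norm_num⟩
  have hm8 : 8 ∈ (F.erase 2).erase 4 := by
    rw [Finset.mem_erase, Finset.mem_erase, hF, Finset.mem_filter, Nat.mem_divisors]
    exact ⟨by norm_num, by norm_num, ⟨hd8, hM.ne⟩, by norm_num⟩
  have e2 := Finset.add_sum_erase F (fun d => om M d) hm2
  have e4 := Finset.add_sum_erase (F.erase 2) (fun d => om M d) hm4
  have e8 := Finset.add_sum_erase ((F.erase 2).erase 4) (fun d => om M d) hm8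
  have hsub : ∀ d ∈ M.divisors.filter (fun d => ∃ q ∈ J, q ∣ d), d ∈ (F.erase 2).erase 4 := by
    intro d hd
    rw [Finset.mem_filter] at hd
    obtain ⟨hdM, q, hq, hqd⟩ := hd
    have h5 := hge q hq
    have hd0 : 0 < d := Nat.pos_of_mem_divisors hdM
    have h6 := Nat.le_of_dvd hd0 hqd
    rw [Finset.mem_erase, Finset.mem_erase, hF, Finset.mem_filter]
    exact ⟨by omega, by omega, hdM, (hev q hq).trans hqd⟩
  have hnn : ∀ d, 0 ≤ om M d := fun d => om_nonneg M d
  norm_num at h1 h2 h3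
  rcases hkap with hc | ⟨hc, h8⟩
  · have hle : del M J ≤ ∑ d ∈ (F.erase 2).erase 4, om M d := by
      unfold del
      exact Finset.sum_le_sum_of_subset_of_nonneg hsub fun d _ _ => hnn d
    have h9 := mul_le_mul_of_nonneg_left hle hk0
    have h10 : ∑ d ∈ (F.erase 2).erase 4, om M d = 1 / 2 - om M 2 - om M 4 := by
      have : ∑ d ∈ F, om M d = 1 / 2 := by
        rw [hS]
        norm_num
      linarith
    rw [h10] at h9
    nlinarith
  · have hle : del M J ≤ ∑ d ∈ ((F.erase 2).erase 4).erase 8, om M d := by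
      unfold del
      refine Finset.sum_le_sum_of_subset_of_nonneg ?_ fun d _ _ => hnn d
      intro d hd
      rw [Finset.mem_erase]
      refine ⟨?_, hsub d hd⟩
      rintro rfl
      rw [Finset.mem_filter] at hd
      obtain ⟨hdM, q, hq, hqd⟩ := hd
      have h5 := hge q hq
      have h6 := Nat.le_of_dvd (by norm_num) hqd
      have h7 : q = 8 := by
        interval_cases q <;> first | rfl | (exfalso; revert hqd; decide)
      exact h8 (h7 ▸ hq)
    have h9 := mul_le_mul_of_nonneg_left hle hk0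
    have h10 : ∑ d ∈ ((F.erase 2).erase 4).erase 8, om M d
        = 1 / 2 - om M 2 - om M 4 - om M 8 := by
      have : ∑ d ∈ F, om M d = 1 / 2 := by
        rw [hS]
        norm_num
      linarith
    rw [h10] at h9
    nlinarith

end Pool.Agent.HSK
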