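import Pool.Agent.HSK.Lt

/-! # Project HSK, row HSK-6: families without prime powers, a member `2 ^ a p ^ b` -/

set_option autoImplicit false

namespace Pool.Agent.HSK

open Pool.Agent.HSS

/-- Case D1: a divisor `d` of `M` which is a multiple of a member of `J` is either even and not a
power of `2`, or odd, divisible by `p` and not a power of `p`. So
`kap s * del M J ≤ (kap s / 2 - 1) + (kap s / (2 p) - 1 / (p - 1))`, which is at most `1` as
`(p - 3) (p - 5) ≥ 0`. -/
theorem locD1 (s : Finset ℕ) (M : ℕ) (hM : Mod s M) (J : Set ℕ) (h : Fam s J) (h2 : 2 ∈ s)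
    (hpp : ∀ r ∈ J, ∀ p, r.primeFactors ≠ {p}) (p : ℕ) (hp : p ∈ s) (hp3 : 3 ≤ p) (r0 : ℕ)
    (hr0 : r0 ∈ J) (hr0' : r0.primeFactors = {2, p}) (hkap : kap s ≤ 15 / 4) :
    kap s * del M J ≤ 1 := by
  classical
  have hpP : p.Prime := hM.pr p hp
  have hd2 : 2 ∣ M := Nat.dvd_of_mem_primeFactors (by rw [hM.pf]; exact h2)
  have hdp : p ∣ M := Nat.dvd_of_mem_primeFactors (by rw [hM.pf]; exact hp)
  have hcop : Nat.Coprime 2 p := (Nat.coprime_primes Nat.prime_two hpP).2 (by omega)
  have hd2p : 2 * p ∣ M := hcop.mul_dvd_of_dvd_of_dvd hd2 hdp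
  have hk0 : 0 ≤ kap s := by
    refine Finset.prod_nonneg fun p hps => ?_
    have h5 := (hM.pr p hps).two_le
    have h6 : (2 : ℝ) ≤ p := by exact_mod_cast h5
    exact div_nonneg (by linarith) (by linarith)
  have hnn : ∀ d, 0 ≤ om M d := fun d => om_nonneg M d
  set A := M.divisors.filter (fun d => 2 ∣ d) with hA
  set A' := M.divisors.filter (fun d => d.primeFactors = {2}) with hA'
  set Dp := M.divisors.filter (fun d => p ∣ d) with hDp
  set B := Dp.filter (fun d => ¬ 2 ∣ d) with hB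
  set B' := M.divisors.filter (fun d => d.primeFactors = {p}) with hB'
  have hAA : A' ⊆ A := by
    intro d hd
    rw [hA', Finset.mem_filter] at hd
    rw [hA, Finset.mem_filter]
    refine ⟨hd.1, Nat.dvd_of_mem_primeFactors ?_⟩
    rw [hd.2]
    exact Finset.mem_singleton_self 2
  have hBB : B' ⊆ B := by
    intro d hd
    rw [hB', Finset.mem_filter] at hd
    rw [hB, Finset.mem_filter, hDp, Finset.mem_filter]
    refine ⟨⟨hd.1, Nat.dvd_of_mem_primeFactors ?_⟩, fun h2d => ?_⟩
    · rw [hd.2]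
      exact Finset.mem_singleton_self p
    · have h3 : 2 ∈ d.primeFactors :=
        Nat.mem_primeFactors.2 ⟨Nat.prime_two, h2d, (Nat.pos_of_mem_divisors hd.1).ne'⟩
      rw [hd.2, Finset.mem_singleton] at h3
      omega
  have hsub : M.divisors.filter (fun d => ∃ q ∈ J, q ∣ d) ⊆ (A \ A') ∪ (B \ B') := by
    intro d hd
    rw [Finset.mem_filter] at hd
    obtain ⟨hdM, q, hq, hqd⟩ := hd
    have hd0 : d ≠ 0 := (Nat.pos_of_mem_divisors hdM).ne'
    have hq5 := h.ge q hq
    have hqne : q.primeFactors.Nonempty := by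
      rw [Nat.nonempty_primeFactors]
      omega
    have hqsub : q.primeFactors ⊆ d.primeFactors := Nat.primeFactors_mono hqd hd0
    have hnot : ∀ t, d.primeFactors ≠ {t} := by
      intro t ht
      rw [ht] at hqsub
      exact hpp q hq t ((Finset.Nonempty.subset_singleton_iff hqne).1 hqsub)
    rw [Finset.mem_union, Finset.mem_sdiff, Finset.mem_sdiff]
    by_cases h2d : 2 ∣ d
    · left
      refine ⟨?_, fun hc => ?_⟩
      · rw [hA, Finset.mem_filter]
        exact ⟨hdM, h2d⟩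
      · rw [hA', Finset.mem_filter] at hc
        exact hnot 2 hc.2
    · right
      have hpd : p ∣ d := by
        have hnc := h.inter q hq r0 hr0
        rw [Nat.Prime.not_coprime_iff_dvd] at hnc
        obtain ⟨t, ht, htq, htr⟩ := hnc
        have h5 := h.ge r0 hr0
        have h6 : t ∈ r0.primeFactors := Nat.mem_primeFactors.2 ⟨ht, htr, by omega⟩
        rw [hr0', Finset.mem_insert, Finset.mem_singleton] at h6
        rcases h6 with h6 | h6
        · exact absurd ((h6 ▸ htq : 2 ∣ q).trans hqd) h2d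
        · exact (h6 ▸ htq : p ∣ q).trans hqd
      refine ⟨?_, fun hc => ?_⟩
      · rw [hB, Finset.mem_filter, hDp, Finset.mem_filter]
        exact ⟨⟨hdM, hpd⟩, h2d⟩
      · rw [hB', Finset.mem_filter] at hc
        exact hnot p hc.2
  have hsA : ∑ d ∈ A, om M d = 1 / 2 := by
    have := sum_om M 2 hM.ne hd2
    rw [hA, this]
    norm_num
  have hsDp : ∑ d ∈ Dp, om M d = 1 / (p : ℝ) := by
    rw [hDp, sum_om M p hM.ne hdp]
  have hs2p : ∑ d ∈ Dp.filter (fun d => 2 ∣ d), om M d = 1 / (2 * (p : ℝ)) := by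
    have h3 := sum_om M (2 * p) hM.ne hd2p
    push_cast at h3
    rw [← h3]
    refine Finset.sum_congr ?_ fun _ _ => rfl
    ext d
    rw [Finset.mem_filter, hDp, Finset.mem_filter, Finset.mem_filter]
    constructor
    · rintro ⟨⟨h4, h5⟩, h6⟩
      exact ⟨h4, hcop.mul_dvd_of_dvd_of_dvd h6 h5⟩
    · rintro ⟨h4, h5⟩
      exact ⟨⟨h4, dvd_of_mul_left_dvd h5⟩, dvd_of_mul_right_dvd h5⟩
  have hsB : ∑ d ∈ B, om M d = 1 / (2 * (p : ℝ)) := by
    have h3 := Finset.sum_filter_add_sum_filter_not Dp (fun d => 2 ∣ d) (fun d => om M d)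
    have hp0 : (p : ℝ) ≠ 0 := by exact_mod_cast hpP.ne_zero
    have h4 : (1 : ℝ) / p = 1 / (2 * (p : ℝ)) + 1 / (2 * (p : ℝ)) := by
      field_simp
      norm_num
    rw [hsDp, hs2p, h4] at h3
    linarith
  have hA1 := Finset.sum_sdiff (f := fun d => om M d) hAA
  have hB1 := Finset.sum_sdiff (f := fun d => om M d) hBB
  have hkA := kap_om_pow s M 2 hM h2
  have hkB := kap_om_pow s M p hM hp
  have hdel : del M J ≤ ∑ d ∈ A \ A', om M d + ∑ d ∈ B \ B', om M d := by
    unfold del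
    refine (Finset.sum_le_sum_of_subset_of_nonneg hsub fun d _ _ => hnn d).trans ?_
    have h3 := Finset.sum_union_inter (s₁ := A \ A') (s₂ := B \ B') (f := fun d => om M d)
    have h4 : 0 ≤ ∑ d ∈ (A \ A') ∩ (B \ B'), om M d := Finset.sum_nonneg fun d _ => hnn d
    linarith
  have h9 := mul_le_mul_of_nonneg_left hdel hk0
  rw [← hA'] at hkA
  rw [← hB'] at hkB
  have hp3' : (3 : ℝ) ≤ p := by exact_mod_cast hp3
  have h10 : kap s * (∑ d ∈ A \ A', om M d + ∑ d ∈ B \ B', om M d) =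
      kap s / 2 - 1 / ((2 : ℕ) - 1 : ℝ) + (kap s / (2 * (p : ℝ)) - 1 / ((p : ℝ) - 1)) := by
    rw [← hkA, ← hkB]
    have e1 : ∑ d ∈ A \ A', om M d = 1 / 2 - ∑ d ∈ A', om M d := by linarith
    have e2 : ∑ d ∈ B \ B', om M d = 1 / (2 * (p : ℝ)) - ∑ d ∈ B', om M d := by linarith
    rw [e1, e2]
    ring
  rw [h10] at h9
  refine h9.trans ?_
  have hp35 : (0 : ℝ) ≤ ((p : ℝ) - 3) * ((p : ℝ) - 5) := by
    rcases Nat.lt_or_ge p 4 with h4 | h4
    · have : p = 3 := by omega
      subst this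
      norm_num
    · have h5 : 5 ≤ p := by
        rcases Nat.lt_or_ge p 5 with h6 | h6
        · exfalso
          have : p = 4 := by omega
          subst this
          revert hpP
          decide
        · exact h6
      have h5' : (5 : ℝ) ≤ p := by exact_mod_cast h5
      exact mul_nonneg (by linarith) (by linarith)
  have h11 : kap s / 2 + kap s / (2 * (p : ℝ)) ≤ 15 / 8 + 15 / (8 * (p : ℝ)) := by
    have h12 : kap s / (2 * (p : ℝ)) ≤ (15 / 4) / (2 * (p : ℝ)) := by
      gcongr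
    have h13 : (15 / 4 : ℝ) / (2 * (p : ℝ)) = 15 / (8 * (p : ℝ)) := by
      rw [div_div]
      ring_nf
    linarith
  have h14 : 15 / 8 + 15 / (8 * (p : ℝ)) - 1 / ((p : ℝ) - 1) ≤ 2 := by
    have hp0 : (0 : ℝ) < p := by linarith
    have hp1 : (0 : ℝ) < (p : ℝ) - 1 := by linarith
    rw [div_add_div _ _ (by norm_num) (by positivity), div_sub_div _ _ (by positivity) hp1.ne',
      div_le_iff₀ (by positivity)]
    nlinarith [hp35]
  have h15 : (1 : ℝ) / (((2 : ℕ) : ℝ) - 1) = 1 := by norm_num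
  rw [h15]
  linarith

end Pool.Agent.HSK
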