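import Pool.Agent.HSK.Lt

/-! # Project HSK, row HSK-7: families without prime powers, no member `2 ^ a p ^ b` -/

set_option autoImplicit false

namespace Pool.Agent.HSK

open Pool.Agent.HSS

/-- (`k = kap t` for the set `t` of the odd primes, `σ` the sum of the `1 / (p - 1)`: if `3/8 ≤ σ`
clear, otherwise `k ≤ 1 / (1 - σ)`) -/
theorem kap_sub (t : Finset ℕ) (ht : ∀ p ∈ t, p.Prime) (hk : kap t ≤ 15 / 8) :
    kap t - 1 - ∑ p ∈ t, 1 / ((p : ℝ) - 1) ≤ 1 / 2 := by
  set σ : ℝ := ∑ p ∈ t, 1 / ((p : ℝ) - 1) with hσ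
  have hpos : ∀ p ∈ t, (0 : ℝ) < (p : ℝ) - 1 := by
    intro p hp
    have h1 : (2 : ℝ) ≤ p := by exact_mod_cast (ht p hp).two_le
    linarith
  have hσ0 : 0 ≤ σ := Finset.sum_nonneg fun p hp => (one_div_pos.2 (hpos p hp)).le
  have hkexp : kap t ≤ Real.exp σ := by
    rw [hσ, Real.exp_sum, kap]
    refine Finset.prod_le_prod (fun p hp => ?_) (fun p hp => ?_)
    · exact div_nonneg (Nat.cast_nonneg _) (hpos p hp).le
    · have h1 := Real.add_one_le_exp (1 / ((p : ℝ) - 1))
      have h2 : (p : ℝ) / ((p : ℝ) - 1) = 1 / ((p : ℝ) - 1) + 1 := by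
        have := (hpos p hp).ne'
        field_simp
        ring
      rw [h2]
      exact h1
  rcases le_or_gt (3 / 8) σ with h | h
  · linarith
  · have h1 : (1 - σ) * kap t ≤ 1 := by
      calc (1 - σ) * kap t ≤ (1 - σ) * Real.exp σ := by
            apply mul_le_mul_of_nonneg_left hkexp
            linarith
        _ ≤ Real.exp (-σ) * Real.exp σ := by
            apply mul_le_mul_of_nonneg_right _ (Real.exp_pos _).le
            have := Real.add_one_le_exp (-σ)
            linarith
        _ = 1 := by rw [← Real.exp_add]; simp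
    nlinarith

private theorem e_om_nonneg (M d : ℕ) : 0 ≤ om M d :=
  div_nonneg (Nat.cast_nonneg _) (Nat.cast_nonneg _)

/-- Case D2: a divisor `d` of `M` which is a multiple of a member of `J` has at least two odd prime
divisors. The other divisors: those without odd prime divisors (`kap_om_sub` with `t = {2}`) and
those with exactly one odd prime divisor `p` (`kap_om_sub` with `t = {2, p}` minus `t = {2}`). So
`kap s * del M J ≤ 2 (k - 1 - σ)`, `k = kap (s.erase 2)`. -/
theorem locD2 (s : Finset ℕ) (M : ℕ) (hM : Mod s M) (J : Set ℕ) (h : Fam s J) (h2 : 2 ∈ s)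
    (hpp : ∀ r ∈ J, ∀ p, r.primeFactors ≠ {p}) (hpp2 : ∀ r ∈ J, ∀ p, r.primeFactors ≠ {2, p})
    (hkap : kap s ≤ 15 / 4) :
    kap s * del M J ≤ 1 := by
  classical
  have hkpos : 0 < kap s := by
    rw [kap]
    refine Finset.prod_pos fun p hp => ?_
    have h1 : (2 : ℝ) ≤ p := by exact_mod_cast (hM.pr p hp).two_le
    exact div_pos (by linarith) (by linarith)
  set c : ℕ → ℕ := fun d => (d.primeFactors.erase 2).card with hc
  -- the members
  have hJ : ∀ q ∈ J, 2 ≤ c q := by
    intro q hq
    by_contra hlt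
    have hlt' : c q = 0 ∨ c q = 1 := by omega
    have hne : q.primeFactors.Nonempty := by
      rw [Nat.nonempty_primeFactors]
      have := h.ge q hq
      omega
    rcases hlt' with h0 | h1
    · rw [hc] at h0
      simp only [Finset.card_eq_zero] at h0
      apply hpp q hq 2
      rw [Finset.erase_eq_empty_iff] at h0
      rcases h0 with h0 | h0
      · rw [h0] at hne
        exact absurd hne (by simp)
      · exact h0
    · rw [hc] at h1
      simp only [Finset.card_eq_one] at h1
      obtain ⟨p, hp⟩ := h1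
      by_cases h2q : 2 ∈ q.primeFactors
      · apply hpp2 q hq p
        rw [← Finset.insert_erase h2q, hp]
      · apply hpp q hq p
        rw [← Finset.erase_eq_of_notMem h2q, hp]
  have hA : del M J ≤ ∑ d ∈ M.divisors with 2 ≤ c d, om M d := by
    rw [del]
    refine Finset.sum_le_sum_of_subset_of_nonneg ?_ fun d _ _ => e_om_nonneg M d
    intro d hd
    rw [Finset.mem_filter] at hd ⊢
    obtain ⟨hd1, q, hq, hqd⟩ := hd
    refine ⟨hd1, (hJ q hq).trans ?_⟩
    apply Finset.card_le_card
    apply Finset.erase_subset_erase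
    exact Nat.primeFactors_mono hqd (Nat.pos_of_mem_divisors hd1).ne'
  -- the whole sum
  have hall : ∑ d ∈ M.divisors, om M d = 1 := by
    have h1 := kap_om_sub s s M hM (Finset.Subset.refl s)
    rw [div_self hkpos.ne', Finset.filter_true_of_mem] at h1
    · exact h1
    · intro d hd
      rw [← hM.pf]
      exact Nat.primeFactors_mono (Nat.dvd_of_mem_divisors hd) hM.ne
  have hkap2 : kap {2} = 2 := by
    rw [kap, Finset.prod_singleton]
    norm_num
  have h0 : ∑ d ∈ M.divisors with c d = 0, om M d = 2 / kap s := by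
    have h1 := kap_om_sub s {2} M hM (by simpa using h2)
    rw [hkap2] at h1
    rw [← h1]
    refine Finset.sum_congr (Finset.filter_congr fun d _ => ?_) fun _ _ => rfl
    rw [hc]
    simp only [Finset.card_eq_zero, Finset.erase_eq_empty_iff, Finset.subset_singleton_iff]
  have hp : ∀ p ∈ s.erase 2, ∑ d ∈ M.divisors with d.primeFactors.erase 2 = {p}, om M d =
      2 * (1 / ((p : ℝ) - 1)) / kap s := by
    intro p hp
    rw [Finset.mem_erase] at hp
    have h1 := kap_om_sub s {2, p} M hM (by
      intro x hx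
      rw [Finset.mem_insert, Finset.mem_singleton] at hx
      rcases hx with rfl | rfl
      · exact h2
      · exact hp.2)
    have h3 : kap {2, p} = 2 * ((p : ℝ) / ((p : ℝ) - 1)) := by
      rw [kap, Finset.prod_pair (Ne.symm hp.1)]
      norm_num
    have h4 : ∑ d ∈ M.divisors with d.primeFactors ⊆ {2, p}, om M d =
        ∑ d ∈ M.divisors with c d = 0, om M d +
          ∑ d ∈ M.divisors with d.primeFactors.erase 2 = {p}, om M d := by
      rw [← Finset.sum_union]
      · refine Finset.sum_congr ?_ fun _ _ => rfl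
        ext d
        simp only [Finset.mem_filter, Finset.mem_union, hc, Finset.card_eq_zero]
        have h5 : d.primeFactors ⊆ {2, p} ↔
            d.primeFactors.erase 2 = ∅ ∨ d.primeFactors.erase 2 = {p} := by
          rw [← Finset.subset_singleton_iff, Finset.subset_insert_iff]
        rw [h5]
        tauto
      · rw [Finset.disjoint_filter]
        intro d _ h5 h6
        rw [hc] at h5
        simp only [h6, Finset.card_singleton] at h5
        omega
    rw [h4, h0, h3] at h1
    have hp1 : (1 : ℝ) < p := by exact_mod_cast (hM.pr p hp.2).one_lt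
    have hp2 : (p : ℝ) - 1 ≠ 0 := by linarith
    have h6 : (p : ℝ) / ((p : ℝ) - 1) = 1 + 1 / ((p : ℝ) - 1) := by
      field_simp
      ring
    rw [h6] at h1
    have h7 : 2 * (1 + 1 / ((p : ℝ) - 1)) / kap s =
        2 / kap s + 2 * (1 / ((p : ℝ) - 1)) / kap s := by
      rw [← add_div]
      ring
    linarith
  have h1 : ∑ d ∈ M.divisors with c d = 1, om M d =
      ∑ p ∈ s.erase 2, 2 * (1 / ((p : ℝ) - 1)) / kap s := by
    rw [← Finset.sum_congr rfl hp]
    rw [← Finset.sum_biUnion]
    · refine Finset.sum_congr ?_ fun _ _ => rfl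
      ext d
      simp only [Finset.mem_filter, Finset.mem_biUnion, hc, Finset.card_eq_one]
      constructor
      · rintro ⟨hd, p, hp'⟩
        refine ⟨p, ?_, hd, hp'⟩
        have h3 : p ∈ d.primeFactors.erase 2 := by rw [hp']; simp
        rw [Finset.mem_erase] at h3 ⊢
        refine ⟨h3.1, ?_⟩
        rw [← hM.pf]
        exact Nat.primeFactors_mono (Nat.dvd_of_mem_divisors hd) hM.ne h3.2
      · rintro ⟨p, _, hd, hp'⟩
        exact ⟨hd, p, hp'⟩
    · intro p _ p' _ hne
      simp only [Function.onFun]
      rw [Finset.disjoint_filter]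
      intro d _ h3 h4
      rw [h3] at h4
      exact hne (by simpa using h4)
  have hsplit : ∑ d ∈ M.divisors, om M d = ∑ d ∈ M.divisors with c d = 0, om M d +
      (∑ d ∈ M.divisors with c d = 1, om M d + ∑ d ∈ M.divisors with 2 ≤ c d, om M d) := by
    rw [← Finset.sum_filter_add_sum_filter_not M.divisors (fun d => c d = 0)]
    congr 1
    rw [← Finset.sum_filter_add_sum_filter_not (M.divisors.filter fun d => ¬ c d = 0)
      (fun d => c d = 1), Finset.filter_filter, Finset.filter_filter]
    congr 1
    · refine Finset.sum_congr (Finset.filter_congr fun d _ => ?_) fun _ _ => rfl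
      omega
    · refine Finset.sum_congr (Finset.filter_congr fun d _ => ?_) fun _ _ => rfl
      omega
  have hks : kap s = 2 * kap (s.erase 2) := by
    rw [kap, kap, ← Finset.mul_prod_erase s _ h2]
    norm_num
  have hsub := kap_sub (s.erase 2) (fun p hp => hM.pr p (Finset.mem_of_mem_erase hp))
    (by linarith)
  have h3 : kap s * ∑ d ∈ M.divisors with 2 ≤ c d, om M d =
      kap s - 2 - 2 * ∑ p ∈ s.erase 2, 1 / ((p : ℝ) - 1) := by
    have h4 : ∑ d ∈ M.divisors with 2 ≤ c d, om M d =
        1 - 2 / kap s - ∑ p ∈ s.erase 2, 2 * (1 / ((p : ℝ) - 1)) / kap s := by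
      linarith
    rw [h4, ← Finset.sum_div, ← Finset.mul_sum]
    field_simp
  calc kap s * del M J ≤ kap s * ∑ d ∈ M.divisors with 2 ≤ c d, om M d :=
        mul_le_mul_of_nonneg_left hA hkpos.le
    _ = kap s - 2 - 2 * ∑ p ∈ s.erase 2, 1 / ((p : ℝ) - 1) := h3
    _ ≤ 1 := by
        rw [hks]
        linarith

end Pool.Agent.HSK
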