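import Pool.Agent.HSK.LocA
import Pool.Agent.HSK.LocC
import Pool.Agent.HSK.LocD
import Pool.Agent.HSK.LocE

/-! # Project HSK, row HSK-10: the local inequality -/

set_option autoImplicit false

namespace Pool.Agent.HSK

open Pool.Agent.HSS

theorem loc_all (s : Finset ℕ) (M : ℕ) (hM : Mod s M) (J : Set ℕ) (h : Fam s J) (h2 : 2 ∈ s)
    (hkap : kap s ≤ 7 / 2 ∨ (kap s ≤ 15 / 4 ∧ 8 ∉ J)) :
    kap s * del M J ≤ 1 := by
  have hk : kap s ≤ 15 / 4 := by
    rcases hkap with h1 | h1
    · exact h1.trans (by norm_num)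
    · exact h1.1
  by_cases hpp : ∀ r ∈ J, ∀ p, r.primeFactors ≠ {p}
  · by_cases hpp2 : ∀ r ∈ J, ∀ p, r.primeFactors ≠ {2, p}
    · exact locD2 s M hM J h h2 hpp hpp2 hk
    · push Not at hpp2
      obtain ⟨r0, hr0, p, hp⟩ := hpp2
      have hpr : p ∈ r0.primeFactors := by
        rw [hp]
        simp
      have hp2 : p ≠ 2 := by
        rintro rfl
        exact hpp r0 hr0 2 (by rw [hp]; simp)
      have hp1 : p.Prime := Nat.prime_of_mem_primeFactors hpr
      have hp3 : 3 ≤ p := by
        have := hp1.two_le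
        omega
      exact locD1 s M hM J h h2 hpp p (h.supp r0 hr0 hpr) hp3 r0 hr0 hp hk
  · push Not at hpp
    obtain ⟨r, hr, p, hp⟩ := hpp
    have hpr : p ∈ r.primeFactors := by
      rw [hp]
      simp
    have hp1 : p.Prime := Nat.prime_of_mem_primeFactors hpr
    have hps : p ∈ s := h.supp r hr hpr
    have hr0 : r ≠ 0 := by
      have := h.ge r hr
      omega
    obtain ⟨k, hk'⟩ : ∃ k, r = p ^ k := by
      refine ⟨r.factorization p, ?_⟩
      have h1 := Nat.prod_primeFactors_prod_factorization (n := r) (fun p => p)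
      have h2 := Nat.prod_factorization_pow_eq_self hr0
      rw [Finsupp.prod, Nat.support_factorization, hp, Finset.prod_singleton] at h2
      exact h2.symm
    rw [hk'] at hr
    rcases lt_or_ge p 5 with h5 | h5
    · have h23 : p = 2 ∨ p = 3 := by
        have h6 := hp1.two_le
        have h7 : p ≠ 4 := by
          rintro rfl
          exact absurd hp1 (by norm_num)
        omega
      rcases h23 with rfl | rfl
      · exact locC s M hM J h k hps hr hkap
      · exact locB s M hM J h k hps hr hk
    · exact locA s M hM J h p k hps h5 hr hk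

end Pool.Agent.HSK
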