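import Pool.Agent.HSK.Defs
import Pool.Agent.HSS.LTwo

/-! # Project HSK, row HSK-3: the strict form of `l2`, and single weights -/

set_option autoImplicit false

namespace Pool.Agent.HSK

open Pool.Agent.HSS

theorem hsk3_kap_pos (s : Finset ℕ) (hs : ∀ p ∈ s, p.Prime) : 0 < kap s := by
  refine Finset.prod_pos fun p hp => ?_
  have h2 : (2 : ℝ) ≤ (p : ℝ) := by exact_mod_cast (hs p hp).two_le
  exact div_pos (by linarith) (by linarith)

theorem hsk3_om_eq (s : Finset ℕ) (M a : ℕ) (hM : M ≠ 0) (hs : ∀ p ∈ s, p.Prime)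
    (hMs : M.primeFactors ⊆ s) (ha : a * ∏ p ∈ s, p ∣ M) : kap s * om M a = 1 / (a : ℝ) := by
  have ha0 : a ≠ 0 := by
    rintro rfl
    rw [zero_mul] at ha
    exact hM (zero_dvd_iff.1 ha)
  have haM : a ∣ M := (Dvd.intro _ rfl).trans ha
  obtain ⟨b, rfl⟩ := haM
  have hb0 : b ≠ 0 := by
    rintro rfl
    exact hM (mul_zero a)
  have hb : a * b / a = b := Nat.mul_div_cancel_left b (Nat.pos_of_ne_zero ha0)
  have hPb : ∏ p ∈ s, p ∣ b := (Nat.mul_dvd_mul_iff_left (Nat.pos_of_ne_zero ha0)).1 ha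
  have hpf : b.primeFactors = s := by
    apply Finset.Subset.antisymm
    · refine fun p hp => hMs ?_
      rw [Nat.primeFactors_mul ha0 hb0]
      exact Finset.mem_union_right _ hp
    · intro p hp
      exact Nat.mem_primeFactors.2 ⟨hs p hp, (Finset.dvd_prod_of_mem _ hp).trans hPb, hb0⟩
  have htot := Nat.totient_mul_prod_primeFactors b
  rw [hpf] at htot
  have htotR : ((b.totient : ℕ) : ℝ) * ∏ p ∈ s, (p : ℝ) = (b : ℝ) * ∏ p ∈ s, ((p : ℝ) - 1) := by
    have h1 : (((b.totient * ∏ p ∈ s, p : ℕ)) : ℝ) = ((b * ∏ p ∈ s, (p - 1) : ℕ) : ℝ) := by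
      rw [htot]
    rw [Nat.cast_mul, Nat.cast_mul, Nat.cast_prod, Nat.cast_prod] at h1
    rw [h1]
    congr 1
    refine Finset.prod_congr rfl fun p hp => ?_
    rw [Nat.cast_sub (hs p hp).one_le, Nat.cast_one]
  have hP0 : ∏ p ∈ s, (p : ℝ) ≠ 0 := Finset.prod_ne_zero_iff.2 fun p hp => by
    exact_mod_cast (hs p hp).ne_zero
  have hP1 : ∏ p ∈ s, ((p : ℝ) - 1) ≠ 0 := Finset.prod_ne_zero_iff.2 fun p hp => by
    have h2 : (2 : ℝ) ≤ (p : ℝ) := by exact_mod_cast (hs p hp).two_le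
    intro h
    linarith
  have haR : (a : ℝ) ≠ 0 := by exact_mod_cast ha0
  have hbR : (b : ℝ) ≠ 0 := by exact_mod_cast hb0
  unfold kap om
  rw [hb, Finset.prod_div_distrib, Nat.cast_mul]
  field_simp
  linear_combination htotR

/-- (as `Pool.Agent.HSS.l2`; the divisor `M` of `M` is divisible by the members of `A` and is not
in `A`) -/
theorem l2_lt (s A : Finset ℕ) (M : ℕ) (hM : M ≠ 0) (hs : ∀ p ∈ s, p.Prime) (hs0 : s.Nonempty)
    (hMs : M.primeFactors ⊆ s) (hA : ∀ a ∈ A, a * ∏ p ∈ s, p ∣ M) (hA0 : A.Nonempty) :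
    ∑ a ∈ A, 1 / (a : ℝ) < kap s * del M (A : Set ℕ) := by
  classical
  have h1 : ∑ a ∈ A, 1 / (a : ℝ) = kap s * ∑ a ∈ A, om M a := by
    rw [Finset.mul_sum]
    exact Finset.sum_congr rfl fun a ha => (hsk3_om_eq s M a hM hs hMs (hA a ha)).symm
  rw [h1]
  refine mul_lt_mul_of_pos_left ?_ (hsk3_kap_pos s hs)
  unfold del
  have hdvd : ∀ a ∈ A, a ∣ M := fun a ha => (Dvd.intro _ rfl).trans (hA a ha)
  have hMA : M ∉ A := by
    intro h
    have h2 := hA M h
    have h3 : ∏ p ∈ s, p ∣ 1 := by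
      apply (Nat.mul_dvd_mul_iff_left (Nat.pos_of_ne_zero hM)).1
      rwa [mul_one]
    obtain ⟨p, hp⟩ := hs0
    exact (hs p hp).one_lt.ne' (Nat.dvd_one.1 ((Finset.dvd_prod_of_mem _ hp).trans h3))
  refine Finset.sum_lt_sum_of_subset (i := M) (fun a ha => ?_) ?_ hMA ?_ fun d _ _ => om_nonneg M d
  · simp only [Finset.mem_filter, Nat.mem_divisors]
    exact ⟨⟨hdvd a ha, hM⟩, a, Finset.mem_coe.2 ha, dvd_rfl⟩
  · obtain ⟨a, ha⟩ := hA0
    simp only [Finset.mem_filter, Nat.mem_divisors]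
    exact ⟨⟨dvd_rfl, hM⟩, a, Finset.mem_coe.2 ha, hdvd a ha⟩
  unfold om
  rw [Nat.div_self (Nat.pos_of_ne_zero hM), Nat.totient_one]
  have : (0 : ℝ) < (M : ℝ) := by exact_mod_cast Nat.pos_of_ne_zero hM
  positivity

/-- (see the proof of `Pool.Agent.HSS.l2`) -/
theorem kap_om (s : Finset ℕ) (M a : ℕ) (h : Mod s M) (ha : a * ∏ p ∈ s, p ∣ M) :
    kap s * om M a = 1 / (a : ℝ) :=
  hsk3_om_eq s M a h.ne h.pr h.pf.subset ha

theorem kap_om_one (s : Finset ℕ) (M : ℕ) (h : Mod s M) : kap s * om M 1 = 1 := by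
  have h1 := kap_om s M 1 h (by
    rw [one_mul]
    exact (dvd_pow_self _ (by norm_num)).trans h.dvd)
  rw [h1, Nat.cast_one, div_one]

/-- the divisors of `M` all of whose prime divisors are in `t` (the proportion of the residues
coprime to the primes in `s \ t`) -/
theorem kap_om_sub (s t : Finset ℕ) (M : ℕ) (h : Mod s M) (ht : t ⊆ s) :
    ∑ d ∈ M.divisors with d.primeFactors ⊆ t, om M d = kap t / kap s := by
  classical
  have hpr := h.pr
  set Mt := ∏ p ∈ t, p ^ M.factorization p with hMt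
  set Ms := ∏ p ∈ s \ t, p ^ M.factorization p with hMs
  have hprod : Mt * Ms = M := by
    have h1 : ∏ p ∈ s, p ^ M.factorization p = M := by
      have h2 := Nat.prod_factorization_pow_eq_self h.ne
      rw [Finsupp.prod, Nat.support_factorization, h.pf] at h2
      exact h2
    rw [mul_comm, hMt, hMs, Finset.prod_sdiff ht, h1]
  have hne := h.ne
  have hMt0 : Mt ≠ 0 := by
    intro h0
    rw [h0, zero_mul] at hprod
    exact hne hprod.symm
  have hMs0 : Ms ≠ 0 := by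
    intro h0
    rw [h0, mul_zero] at hprod
    exact hne hprod.symm
  have hdt : ∀ p : ℕ, p.Prime → p ∣ Mt → p ∈ t := by
    intro p hp hpd
    obtain ⟨q, hq, hpq⟩ := (hp.prime.dvd_finsetProd_iff _).1 hpd
    have h1 := (Nat.prime_dvd_prime_iff_eq hp (hpr q (ht hq))).1 (hp.dvd_of_dvd_pow hpq)
    rwa [h1]
  have hds : ∀ p : ℕ, p.Prime → p ∣ Ms → p ∈ s \ t := by
    intro p hp hpd
    obtain ⟨q, hq, hpq⟩ := (hp.prime.dvd_finsetProd_iff _).1 hpd
    have h1 := (Nat.prime_dvd_prime_iff_eq hp (hpr q (Finset.mem_sdiff.1 hq).1)).1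
      (hp.dvd_of_dvd_pow hpq)
    rwa [h1]
  have hco : ∀ d : ℕ, d.primeFactors ⊆ t → d ≠ 0 → Nat.Coprime d Ms := by
    intro d hd hd0
    refine Nat.coprime_of_dvd fun p hp hpd hpM => ?_
    exact (Finset.mem_sdiff.1 (hds p hp hpM)).2 (hd (Nat.mem_primeFactors.2 ⟨hp, hpd, hd0⟩))
  have hset : (M.divisors.filter fun d => d.primeFactors ⊆ t) = Mt.divisors := by
    ext d
    simp only [Finset.mem_filter, Nat.mem_divisors]
    constructor
    · rintro ⟨⟨hd, _⟩, hdt'⟩
      refine ⟨?_, hMt0⟩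
      have hd0 : d ≠ 0 := fun h0 => hne (zero_dvd_iff.1 (h0 ▸ hd))
      rw [← hprod] at hd
      exact (hco d hdt' hd0).dvd_of_dvd_mul_right hd
    · rintro ⟨hd, _⟩
      refine ⟨⟨hd.trans (Dvd.intro _ hprod), hne⟩, fun p hp => ?_⟩
      exact hdt p (Nat.prime_of_mem_primeFactors hp) ((Nat.dvd_of_mem_primeFactors hp).trans hd)
  have hcop : Nat.Coprime Mt Ms := hco Mt (fun p hp =>
    hdt p (Nat.prime_of_mem_primeFactors hp) (Nat.dvd_of_mem_primeFactors hp)) hMt0
  have hsum : ∑ d ∈ Mt.divisors, (M / d).totient = Mt * Ms.totient := by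
    have h1 : ∀ d ∈ Mt.divisors, (M / d).totient = (Mt / d).totient * Ms.totient := by
      intro d hd
      have hdd := Nat.dvd_of_mem_divisors hd
      rw [← hprod, ← Nat.div_mul_right_comm hdd,
        Nat.totient_mul (Nat.Coprime.coprime_dvd_left (Nat.div_dvd_of_dvd hdd) hcop)]
    rw [Finset.sum_congr rfl h1, ← Finset.sum_mul, Nat.sum_div_divisors Mt Nat.totient,
      Nat.sum_totient]
  have hpf : Ms.primeFactors = s \ t := by
    apply Finset.Subset.antisymm
    · intro p hp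
      exact hds p (Nat.prime_of_mem_primeFactors hp) (Nat.dvd_of_mem_primeFactors hp)
    · intro p hp
      have hps := (Finset.mem_sdiff.1 hp).1
      refine Nat.mem_primeFactors.2 ⟨hpr p hps, ?_, hMs0⟩
      refine dvd_trans (dvd_pow_self p ?_)
        (Finset.dvd_prod_of_mem (fun q => q ^ M.factorization q) hp)
      rw [← h.pf] at hps
      exact ((Nat.prime_of_mem_primeFactors hps).factorization_pos_of_dvd hne
        (Nat.dvd_of_mem_primeFactors hps)).ne'
  clear_value Ms Mt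
  have htot := Nat.totient_mul_prod_primeFactors Ms
  rw [hpf] at htot
  have htotR : ((Ms.totient : ℕ) : ℝ) * ∏ p ∈ s \ t, (p : ℝ) =
      (Ms : ℝ) * ∏ p ∈ s \ t, ((p : ℝ) - 1) := by
    have h1 : (((Ms.totient * ∏ p ∈ s \ t, p : ℕ)) : ℝ) =
        ((Ms * ∏ p ∈ s \ t, (p - 1) : ℕ) : ℝ) := by
      rw [htot]
    rw [Nat.cast_mul, Nat.cast_mul, Nat.cast_prod, Nat.cast_prod] at h1
    rw [h1]
    congr 1
    refine Finset.prod_congr rfl fun p hp => ?_
    rw [Nat.cast_sub (hpr p (Finset.mem_sdiff.1 hp).1).one_le, Nat.cast_one]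
  have hP0 : ∏ p ∈ s \ t, (p : ℝ) ≠ 0 := Finset.prod_ne_zero_iff.2 fun p hp => by
    exact_mod_cast (hpr p (Finset.mem_sdiff.1 hp).1).ne_zero
  have hP1 : ∏ p ∈ s \ t, ((p : ℝ) - 1) ≠ 0 := Finset.prod_ne_zero_iff.2 fun p hp => by
    have h2 : (2 : ℝ) ≤ (p : ℝ) := by exact_mod_cast (hpr p (Finset.mem_sdiff.1 hp).1).two_le
    intro h
    linarith
  have hMtR : (Mt : ℝ) ≠ 0 := by exact_mod_cast hMt0
  have hMsR : (Ms : ℝ) ≠ 0 := by exact_mod_cast hMs0
  have hkt : 0 < kap t := hsk3_kap_pos t fun p hp => hpr p (ht hp)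
  have hks : kap s = kap (s \ t) * kap t := by
    unfold kap
    rw [Finset.prod_sdiff ht]
  have hkst : kap (s \ t) = (∏ p ∈ s \ t, (p : ℝ)) / ∏ p ∈ s \ t, ((p : ℝ) - 1) := by
    unfold kap
    rw [Finset.prod_div_distrib]
  rw [hset, hks, hkst]
  unfold om
  rw [← Finset.sum_div, ← Nat.cast_sum, hsum]
  conv_lhs => rw [← hprod]
  rw [Nat.cast_mul, Nat.cast_mul]
  have hkt' := hkt.ne'
  field_simp
  linear_combination htotR

/-- the divisors of `M` which are nontrivial powers of `p` -/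
theorem kap_om_pow (s : Finset ℕ) (M p : ℕ) (h : Mod s M) (hp : p ∈ s) :
    kap s * ∑ d ∈ M.divisors with d.primeFactors = {p}, om M d = 1 / ((p : ℝ) - 1) := by
  classical
  have h1 := kap_om_sub s {p} M h (Finset.singleton_subset_iff.2 hp)
  have hset : (M.divisors.filter fun d => d.primeFactors ⊆ {p}) =
      insert 1 (M.divisors.filter fun d => d.primeFactors = {p}) := by
    ext d
    simp only [Finset.mem_filter, Finset.mem_insert, Nat.mem_divisors, Finset.subset_singleton_iff]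
    constructor
    · rintro ⟨hd, h2 | h2⟩
      · left
        rcases Nat.primeFactors_eq_empty.1 h2 with h3 | h3
        · subst h3
          exact absurd (zero_dvd_iff.1 hd.1) hd.2
        · exact h3
      · exact Or.inr ⟨hd, h2⟩
    · rintro (rfl | ⟨hd, h2⟩)
      · exact ⟨⟨one_dvd _, h.ne⟩, Or.inl Nat.primeFactors_one⟩
      · exact ⟨hd, Or.inr h2⟩
  have hnot : 1 ∉ (M.divisors.filter fun d => d.primeFactors = {p}) := by
    simp only [Finset.mem_filter, not_and]
    intro _ h2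
    rw [Nat.primeFactors_one] at h2
    exact (Finset.singleton_ne_empty p) h2.symm
  rw [hset, Finset.sum_insert hnot] at h1
  have h2 := kap_om_one s M h
  have hk := hsk3_kap_pos s h.pr
  have h3 : kap s * (om M 1 + ∑ d ∈ M.divisors with d.primeFactors = {p}, om M d) = kap {p} := by
    rw [h1]
    field_simp
  rw [mul_add, h2] at h3
  have h4 : kap {p} = (p : ℝ) / ((p : ℝ) - 1) := by
    unfold kap
    rw [Finset.prod_singleton]
  have h5 : (p : ℝ) - 1 ≠ 0 := by
    have h6 : (2 : ℝ) ≤ (p : ℝ) := by exact_mod_cast (h.pr p hp).two_le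
    intro h0
    linarith
  have h6 : kap s * ∑ d ∈ M.divisors with d.primeFactors = {p}, om M d =
      (p : ℝ) / ((p : ℝ) - 1) - 1 := by
    rw [← h4]
    linarith
  rw [h6]
  field_simp
  ring

end Pool.Agent.HSK
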