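import Pool.Agent.HSK.Perf
import Mathlib.GroupTheory.GroupAction.Jordan

/-! # Project HSK, row HSK-16: no subgroup of index 6 -/

set_option autoImplicit false

namespace Pool.Agent.HSK

open MulAction

/-- A permutation group of degree `6` whose order is a multiple of `9` contains a `3`-cycle. -/
private theorem hsk16_three {α : Type} [Fintype α] [DecidableEq α] {G : Subgroup (Equiv.Perm α)}
    (h8 : Nat.card α = 6) (h9 : 9 ∣ Nat.card G) : ∃ g ∈ G, g.IsThreeCycle := by
  have : Fact (Nat.Prime 3) := ⟨Nat.prime_three⟩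
  obtain ⟨Q, hQ⟩ := Sylow.exists_subgroup_card_pow_prime (G := G) 3 (n := 2) h9
  have hQ' : Nat.card (Q.map G.subtype) = 3 ^ 2 := by
    rw [← hQ]
    exact Nat.card_congr (Q.equivMapOfInjective G.subtype G.subtype_injective).toEquiv.symm
  have hcard : Nat.card (Equiv.Perm α) = 720 := by
    rw [Nat.card_perm, h8]
    rfl
  have hfac : (Nat.card (Equiv.Perm α)).factorization 3 = 2 := by
    rw [hcard, show (720 : ℕ) = 3 ^ 2 * 80 by norm_num, Nat.factorization_mul (by norm_num)
      (by norm_num), Nat.Prime.factorization_pow Nat.prime_three]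
    simp only [Finsupp.add_apply, Finsupp.single_eq_same]
    rw [Nat.factorization_eq_zero_of_not_dvd (by norm_num)]
  let Q1 : Sylow 3 (Equiv.Perm α) := Sylow.ofCard (Q.map G.subtype) (by rw [hfac, hQ'])
  obtain ⟨c, hc⟩ : ∃ c : Equiv.Perm α, c.IsThreeCycle := by
    have h3 : 2 < Fintype.card α := by
      rw [← Nat.card_eq_fintype_card, h8]
      norm_num
    obtain ⟨a, b, c, hab, hac, hbc⟩ := Fintype.two_lt_card_iff.mp h3
    exact ⟨_, Equiv.Perm.isThreeCycle_swap_mul_swap_same hab hac hbc⟩
  have hz : IsPGroup 3 (Subgroup.zpowers c) := by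
    apply IsPGroup.of_card (n := 1)
    rw [Nat.card_zpowers, hc.orderOf, pow_one]
  obtain ⟨Q0, hQ0⟩ := hz.exists_le_sylow
  obtain ⟨t, ht⟩ := MulAction.exists_smul_eq (Equiv.Perm α) Q0 Q1
  have h1 : t * c * t⁻¹ ∈ (Q1 : Subgroup (Equiv.Perm α)) := by
    rw [← ht, Sylow.coe_subgroup_smul]
    exact Subgroup.smul_mem_pointwise_smul c (MulAut.conj t) _ (hQ0 (Subgroup.mem_zpowers c))
  have h2 : t * c * t⁻¹ ∈ Q.map G.subtype := h1
  obtain ⟨w, _, hw⟩ := Subgroup.mem_map.mp h2
  refine ⟨t * c * t⁻¹, ?_, ?_⟩
  · rw [← hw]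
    exact w.2
  · unfold Equiv.Perm.IsThreeCycle
    rw [Equiv.Perm.cycleType_conj]
    exact hc

private theorem hsk16_num (m : ℕ) (h : m ∣ 720) (h2 : ¬ 2 ∣ m) (h5 : ¬ 5 ∣ m)
    (h9 : ¬ 9 ∣ m) : m < 5 := by
  have h1 : m ∣ 45 := by
    have h3 : Nat.Coprime m (2 ^ 4) :=
      Nat.Coprime.pow_right 4 ((Nat.Prime.coprime_iff_not_dvd Nat.prime_two).mpr h2).symm
    have h4 : m ∣ 2 ^ 4 * 45 := by
      have : (2 ^ 4 * 45 : ℕ) = 720 := by norm_num
      rw [this]
      exact h
    exact h3.dvd_of_dvd_mul_left h4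
  have h3 : Nat.Coprime m 5 := ((Nat.Prime.coprime_iff_not_dvd (by norm_num)).mpr h5).symm
  have h6 : m ∣ 5 * 9 := h1
  have h11 : m ∣ 9 := h3.dvd_of_dvd_mul_left h6
  by_contra hlt
  have h12 : m ≤ 9 := Nat.le_of_dvd (by norm_num) h11
  have h13 : 5 ≤ m := by omega
  interval_cases m <;> omega

/-- The action on `R ⧸ S` (`6` points) is primitive: a block of size `2` or `3` would give a proper
subgroup of index `3` or `2` (use `perf_index`). Its image `P` is perfect and `5` does not divide its
order. If `P` contains a `3`-cycle then `P` contains the alternating group (Jordan), so `5` divides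
its order. Otherwise `9` does not divide the order of `P` (the Sylow `3`-subgroups of the symmetric
group have order `9` and one of them contains a `3`-cycle), so a Sylow `2`-subgroup of `P` has index
at most `3`, so it is `P`, and a perfect `2`-group is trivial. -/
theorem index_ne_six (R : Type) [Group R] [Finite R] (hR : commutator R = ⊤)
    (h5 : ¬ 5 ∣ Nat.card R) (S : Subgroup R) : S.index ≠ 6 := by
  classical
  intro h8
  have hft : Fintype (R ⧸ S) := Fintype.ofFinite _
  have hc8 : Nat.card (R ⧸ S) = 6 := h8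
  have hnt : Nontrivial (R ⧸ S) := by
    rw [← Finite.one_lt_card_iff_nontrivial, hc8]
    norm_num
  have hco : IsCoatom S := by
    refine ⟨?_, ?_⟩
    · rintro rfl
      rw [Subgroup.index_top] at h8
      omega
    · intro T hT
      by_contra hTne
      have h5 := perf_index R hR T hTne
      have h6 : T.index ∣ 6 := h8 ▸ Subgroup.index_dvd_of_le hT.le
      have h9 : T.index = 6 := by
        have h10 := Nat.le_of_dvd (by norm_num) h6
        generalize T.index = k at h5 h6 h10
        interval_cases k <;> omega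
      have h10 := Subgroup.relIndex_mul_index hT.le
      rw [h9, h8] at h10
      have h11 : S.relIndex T = 1 := by omega
      exact hT.not_ge (Subgroup.relIndex_eq_one.mp h11)
  have hprim : IsPreprimitive R (R ⧸ S) := by
    rw [← isCoatom_stabilizer_iff_preprimitive R ((1 : R) : R ⧸ S), MulAction.stabilizer_quotient]
    exact hco
  set f : R →* Equiv.Perm (R ⧸ S) := toPermHom R (R ⧸ S) with hf
  have hPp : IsPreprimitive f.range (R ⧸ S) := by
    let φ : (R ⧸ S) →ₑ[f.rangeRestrict] (R ⧸ S) :=
      { toFun := id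
        map_smul' := fun _ _ => rfl }
    exact IsPreprimitive.of_surjective (f := φ) Function.surjective_id
  have hdvd : Nat.card f.range ∣ Nat.card R := Subgroup.card_range_dvd f
  have h5P : ¬ 5 ∣ Nat.card f.range := fun h => h5 (h.trans hdvd)
  have h9P : ¬ 9 ∣ Nat.card f.range := by
    intro h
    obtain ⟨g, hg, h3⟩ := hsk16_three hc8 h
    have hA := Equiv.Perm.alternatingGroup_le_of_isPreprimitive_of_isThreeCycle_mem hPp h3 hg
    have hAc : Nat.card (alternatingGroup (R ⧸ S)) = 360 := by
      have h2 := two_mul_nat_card_alternatingGroup (α := R ⧸ S)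
      have h3 : Nat.card (Equiv.Perm (R ⧸ S)) = 720 := by
        rw [Nat.card_perm, hc8]
        rfl
      omega
    have h4 := Subgroup.card_dvd_of_le hA
    rw [hAc] at h4
    exact h5P (dvd_trans (by norm_num) h4)
  have hcP : commutator f.range = ⊤ := by
    have hs : (⊤ : Subgroup R).map f.rangeRestrict = ⊤ :=
      Subgroup.map_top_of_surjective _ f.rangeRestrict_surjective
    rw [commutator_def, ← hs, ← Subgroup.map_commutator, ← commutator_def, hR]
  have : Fact (Nat.Prime 2) := ⟨Nat.prime_two⟩
  obtain ⟨Q⟩ : Nonempty (Sylow 2 f.range) := inferInstance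
  have hQi : Q.index ∣ Nat.card f.range := Subgroup.index_dvd_card _
  have hQ2 : ¬ 2 ∣ Q.index := Q.not_dvd_index
  have hcard : Nat.card (Equiv.Perm (R ⧸ S)) = 720 := by
    rw [Nat.card_perm, hc8]
    rfl
  have hQ5 : Q.index < 5 := by
    apply hsk16_num
    · exact hQi.trans (hcard ▸ Subgroup.card_subgroup_dvd_card f.range)
    · exact hQ2
    · exact fun h => h5P (h.trans hQi)
    · exact fun h => h9P (h.trans hQi)
  have hQt : (Q : Subgroup f.range) = ⊤ := by
    by_contra hne
    have := perf_index f.range hcP Q hne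
    omega
  have hpg : IsPGroup 2 f.range := by
    have h := Q.isPGroup'
    rw [hQt] at h
    exact h.of_equiv Subgroup.topEquiv
  have hnil := hpg.isNilpotent
  have hsol : Group.IsSolvable f.range := inferInstance
  have hntP : Nontrivial f.range := by
    by_contra hcon
    rw [not_nontrivial_iff_subsingleton] at hcon
    obtain ⟨a, b, hab⟩ := exists_pair_ne (R ⧸ S)
    obtain ⟨g, hg⟩ := MulAction.exists_smul_eq f.range a b
    apply hab
    rw [← hg, Subsingleton.elim g 1, one_smul]
  have := Group.IsSolvable.commutator_lt_top_of_nontrivial f.range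
  exact this.ne hcP

end Pool.Agent.HSK
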