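import Pool.Agent.HSK.Lt
import Pool.Agent.HSK.Lc
import Pool.Agent.HSK.Six
import Pool.Agent.HSK.Eight
import Pool.Agent.HSS.Main

/-! # Project HSK, row HSK-11: the local criterion implies the Herzog-Schoenheim statement -/

set_option autoImplicit false

namespace Pool.Agent.HSK

open Pool.Agent.HSS Pool.Agent.HL

/-- If `kap s * del M J ≤ 1` for all families `J` which can occur (`s` the set of the prime divisors
of the order of `G`) then the Herzog-Schoenheim statement holds for `G`. -/
theorem hs_of_loc (G : Type) [Group G] [Finite G] (h1G : Nat.card G ≠ 1)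
    (hk : ∀ (M : ℕ) (J : Set ℕ), Mod (Nat.card G).primeFactors M → Fam (Nat.card G).primeFactors J →
      (6 ∈ J → 5 ∈ (Nat.card G).primeFactors) → (8 ∈ J → 7 ∈ (Nat.card G).primeFactors) →
      kap (Nat.card G).primeFactors * del M J ≤ 1) : HS G := by
  classical
  intro ι _ H a hH hp
  by_contra hcon
  have hcon' := hcon
  push Not at hcon'
  have hne : Nat.card G ≠ 0 := Nat.card_pos.ne'
  have hinj : ∀ i j, (H i).index = (H j).index → i = j := by
    intro i j hij
    by_contra hne
    exact hcon' i j hne hij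
  obtain ⟨R, hRn, hsol, hperf⟩ := exists_residual G
  set s := (Nat.card G).primeFactors with hs
  have hsne : s.Nonempty := by
    rw [Finset.nonempty_iff_ne_empty]
    intro h
    rw [hs, Nat.primeFactors_eq_empty] at h
    rcases h with h | h
    · exact hne h
    · exact h1G h
  have hpr : ∀ p ∈ s, p.Prime := fun p hp => Nat.prime_of_mem_primeFactors hp
  have hprod : (∏ p ∈ s, p) ≠ 0 := Finset.prod_ne_zero_iff.2 fun p hp => (hpr p hp).ne_zero
  by_cases hall : ∀ i, R ≤ H i
  · exact hcon (hs_quot R (hs_solvable (G ⧸ R)) H a hall hH hp)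
  push Not at hall
  obtain ⟨i0, hi0⟩ := hall
  set U : Finset ι := Finset.univ.filter fun i => ¬ R ≤ H i with hU
  have hUm : ∀ i, i ∈ U ↔ ¬ R ≤ H i := fun i => by simp [hU]
  set M : ℕ := Nat.card G * (∏ p ∈ s, p) ^ 4 with hMdef
  have hM0 : M ≠ 0 := mul_ne_zero hne (pow_ne_zero _ hprod)
  have hpf : M.primeFactors = s := by
    rw [hMdef, Nat.primeFactors_mul hne (pow_ne_zero _ hprod), Nat.primeFactors_pow _ (by norm_num)]
    rw [Nat.primeFactors_prod hpr]
    rw [← hs, Finset.union_self]
  have hMod : Mod s M := ⟨hpr, hM0, hpf, Dvd.intro_left _ rfl⟩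
  have hdvd : ∀ x, x ∣ Nat.card G → x * ∏ p ∈ s, p ∣ M := fun x hx =>
    mul_dvd_mul hx (dvd_pow_self _ (by norm_num))
  -- the sum
  have hT : ∑ i ∈ U, 1 / ((H i).index : ℝ) < kap s * del M {x | ∃ i ∈ U, x = (H i).index} := by
    have h1 := l2_lt s (U.image fun i => (H i).index) M hM0 hpr hsne hpf.le (by
      intro x hx
      obtain ⟨i, -, rfl⟩ := Finset.mem_image.1 hx
      exact hdvd _ (Subgroup.index_dvd_card _)) ⟨(H i0).index, Finset.mem_image.2
        ⟨i0, (hUm i0).2 hi0, rfl⟩⟩
    rw [Finset.sum_image (fun i _ j _ hij => hinj i j hij)] at h1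
    have h3 : ((U.image fun i => (H i).index : Finset ℕ) : Set ℕ) =
        {x | ∃ i ∈ U, x = (H i).index} := by
      ext x
      simp only [Finset.coe_image, Set.mem_image, Set.mem_ofPred_eq, Finset.mem_coe]
      constructor
      · rintro ⟨i, hi, rfl⟩
        exact ⟨i, hi, rfl⟩
      · rintro ⟨i, hi, rfl⟩
        exact ⟨i, hi, rfl⟩
    rw [h3] at h1
    exact h1
  have hkpos : 0 < kap s := by
    unfold kap
    refine Finset.prod_pos fun p hp => ?_
    have h1 : (2 : ℝ) ≤ p := by exact_mod_cast (hpr p hp).two_le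
    exact div_pos (by linarith) (by linarith)
  -- the local families
  have hloc : ∀ g ∈ CC R H a U,
      del M {r | ∃ i ∈ U, (a i)⁻¹ * g ∈ H i ⊔ R ∧ r = (H i).relIndex R} ≤ 1 / kap s := by
    intro g _
    have hF : Fam s {r | ∃ i ∈ U, (a i)⁻¹ * g ∈ H i ⊔ R ∧ r = (H i).relIndex R} := by
      refine ⟨?_, ?_, ?_⟩
      · rintro r ⟨i, hi, -, rfl⟩
        refine perf_index R hperf ((H i).subgroupOf R) ?_
        rw [Ne, Subgroup.subgroupOf_eq_top]
        exact (hUm i).1 hi
      · rintro r ⟨i, hi, -, rfl⟩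
        refine Nat.primeFactors_mono ?_ hne
        exact ((H i).relIndex_dvd_card R).trans (Subgroup.card_subgroup_dvd_card R)
      · rintro r ⟨i, hi, hgi, rfl⟩ r' ⟨j, hj, hgj, rfl⟩ hc
        have key : ∀ i, (a i)⁻¹ * g ∈ H i ⊔ R → ∃ ρ ∈ R, (a i)⁻¹ * (g * ρ) ∈ H i := by
          intro i hi
          rw [← SetLike.mem_coe, Subgroup.mul_normal] at hi
          obtain ⟨h, hh, ρ, hρ, e⟩ := Set.mem_mul.1 hi
          refine ⟨ρ⁻¹, R.inv_mem hρ, ?_⟩
          rw [← mul_assoc, ← e]
          simpa using hh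
        obtain ⟨ρ, hρ, h1, h3⟩ := meet_of_coprime_rel R (H i) (H j) hc (a i) (a j) g
          (key i hgi) (key j hgj)
        obtain rfl : i = j := (hp (g * ρ)).unique h1 h3
        rw [Nat.coprime_self, Subgroup.relIndex_eq_one] at hc
        exact (hUm i).1 hi hc
    have h := hk M _ hMod hF (by
      rintro ⟨i, hi, -, h6⟩
      by_contra h5
      refine index_ne_six R hperf ?_ ((H i).subgroupOf R) h6.symm
      intro h5'
      apply h5
      rw [hs, Nat.mem_primeFactors]
      exact ⟨by norm_num, h5'.trans (Subgroup.card_subgroup_dvd_card R), hne⟩) (by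
      rintro ⟨i, hi, -, h8⟩
      by_contra h7
      refine index_ne_eight R hperf ?_ ((H i).subgroupOf R) h8.symm
      intro h7'
      apply h7
      rw [hs, Nat.mem_primeFactors]
      exact ⟨by norm_num, h7'.trans (Subgroup.card_subgroup_dvd_card R), hne⟩)
    rw [le_div_iff₀ hkpos, mul_comm]
    exact h
  have hlc := lc R hsol H a U M hM0 (by
    intro i _
    exact ((((H i).relIndex_dvd_card R).trans (Subgroup.card_subgroup_dvd_card R)).trans
      (Dvd.intro _ rfl))) (1 / kap s) (by positivity) (CC R H a U)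
    (fun i hi g hg => ⟨i, hi, hg⟩) hloc
  have hgeo := geo1 R H a hp U U hUm (Finset.Subset.refl _)
  have h1 : kap s * del M {x | ∃ i ∈ U, x = (H i).index} ≤ mu (CC R H a U) := by
    calc kap s * del M {x | ∃ i ∈ U, x = (H i).index}
        ≤ kap s * (1 / kap s * mu (CC R H a U)) := mul_le_mul_of_nonneg_left hlc hkpos.le
      _ = mu (CC R H a U) := by field_simp
  linarith

end Pool.Agent.HSK
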