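import Pool.Agent.HSK.Defs

/-! # Project HSK, row HSK-8: perfect groups and the solvable residual -/

set_option autoImplicit false

namespace Pool.Agent.HSK

open scoped commutatorElement

/-- A property of group elements that is closed under products and inverses and holds for
commutators holds everywhere in a perfect group. -/
private theorem hsk8_all {R : Type} [Group R] (hR : commutator R = ⊤) (K : Subgroup R)
    (hK : ∀ a b : R, ⁅a, b⁆ ∈ K) (r : R) : r ∈ K := by
  have h1 : commutator R ≤ K := by
    rw [commutator_def, Subgroup.commutator_le]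
    intro a _ b _
    exact hK a b
  rw [hR] at h1
  exact h1 (Subgroup.mem_top r)

set_option maxRecDepth 100000 in
private theorem hsk8_A : ∀ a b : Equiv.Perm (Fin 4), Equiv.Perm.sign a = 1 →
    Equiv.Perm.sign b = 1 → (a * b * a⁻¹ * b⁻¹) * (a * b * a⁻¹ * b⁻¹) = 1 := by
  decide +kernel

set_option maxRecDepth 100000 in
private theorem hsk8_V : ∀ a b : Equiv.Perm (Fin 4), Equiv.Perm.sign a = 1 →
    Equiv.Perm.sign b = 1 → a * a = 1 → b * b = 1 → a * b = b * a := by
  decide +kernel

/-- A homomorphism from a perfect group to the symmetric group of degree `4` is trivial. -/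
private theorem hsk8_triv {R : Type} [Group R] (hR : commutator R = ⊤)
    (f : R →* Equiv.Perm (Fin 4)) (r : R) : f r = 1 := by
  have h1 : ∀ r, Equiv.Perm.sign (f r) = 1 := by
    intro r
    have h := hsk8_all hR (Equiv.Perm.sign.comp f).ker (fun a b => by
      rw [MonoidHom.mem_ker, map_commutatorElement, commutatorElement_eq_one_iff_mul_comm]
      exact mul_comm _ _) r
    exact h
  have h2 : ∀ r, f r * f r = 1 := by
    intro r
    let V : Subgroup R :=
      { carrier := {r | f r * f r = 1}
        one_mem' := by simp
        mul_mem' := by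
          intro a b ha hb
          have ha' : f a * f a = 1 := ha
          have hb' : f b * f b = 1 := hb
          have hc := hsk8_V (f a) (f b) (h1 a) (h1 b) ha' hb'
          show f (a * b) * f (a * b) = 1
          rw [map_mul]
          calc f a * f b * (f a * f b) = f a * f b * (f b * f a) := by rw [hc]
            _ = f a * (f b * f b) * f a := by simp only [mul_assoc]
            _ = 1 := by rw [hb', mul_one, ha']
        inv_mem' := by
          intro a ha
          have ha' : f a * f a = 1 := ha
          show f a⁻¹ * f a⁻¹ = 1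
          rw [map_inv, ← mul_inv_rev, ha', inv_one] }
    exact hsk8_all hR V (fun a b => by
      show f ⁅a, b⁆ * f ⁅a, b⁆ = 1
      rw [map_commutatorElement, commutatorElement_def]
      exact hsk8_A (f a) (f b) (h1 a) (h1 b)) r
  have h3 := hsk8_all hR f.ker (fun a b => by
    rw [MonoidHom.mem_ker, map_commutatorElement, commutatorElement_eq_one_iff_mul_comm]
    exact hsk8_V (f a) (f b) (h1 a) (h1 b) (h2 a) (h2 b)) r
  exact h3

/-- (the action on the cosets of `S`, a permutation group of degree at most `4`, is solvable and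
perfect) -/
theorem perf_index (R : Type) [Group R] [Finite R] (hR : commutator R = ⊤) (S : Subgroup R)
    (hS : S ≠ ⊤) : 5 ≤ S.index := by
  classical
  by_contra hlt
  push Not at hlt
  apply hS
  have : Fintype (R ⧸ S) := Fintype.ofFinite _
  have hcard : Fintype.card (R ⧸ S) ≤ Fintype.card (Fin 4) := by
    rw [Fintype.card_fin, ← Nat.card_eq_fintype_card]
    have h1 : Nat.card (R ⧸ S) = S.index := rfl
    omega
  obtain ⟨ι⟩ := Function.Embedding.nonempty_of_card_le hcard
  let f : R →* Equiv.Perm (Fin 4) :=
    (Equiv.Perm.viaEmbeddingHom ι).comp (MulAction.toPermHom R (R ⧸ S))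
  rw [eq_top_iff]
  intro r _
  have h1 := hsk8_triv hR f r
  have h2 : MulAction.toPermHom R (R ⧸ S) r = 1 := by
    apply Equiv.Perm.viaEmbeddingHom_injective ι
    rw [map_one]
    exact h1
  have h3 : r • ((1 : R) : R ⧸ S) = ((1 : R) : R ⧸ S) := by
    have h4 := congrArg (fun σ : Equiv.Perm (R ⧸ S) => σ ((1 : R) : R ⧸ S)) h2
    exact h4
  have h5 : ((r * 1 : R) : R ⧸ S) = ((1 : R) : R ⧸ S) := h3
  rw [mul_one, eq_comm, QuotientGroup.eq] at h5
  simpa using h5

/-- (the last term of the derived series) -/
theorem exists_residual (G : Type) [Group G] [Finite G] :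
    ∃ R : Subgroup G, ∃ _ : R.Normal, Group.IsSolvable (G ⧸ R) ∧ commutator R = ⊤ := by
  obtain ⟨_, ⟨n, rfl⟩, hmin⟩ := (wellFounded_lt (α := Subgroup G)).has_min
    (Set.range (derivedSeries G)) ⟨_, 0, rfl⟩
  have h1 : ⁅derivedSeries G n, derivedSeries G n⁆ = derivedSeries G n := by
    by_contra hne
    exact hmin _ ⟨n + 1, rfl⟩
      (lt_of_le_of_ne (derivedSeries_antitone G (Nat.le_succ n)) hne)
  have hN : (derivedSeries G n).Normal := derivedSeries_normal G n
  refine ⟨derivedSeries G n, hN, ⟨⟨n, ?_⟩⟩, ?_⟩
  · rw [← map_derivedSeries_eq (f := QuotientGroup.mk' (derivedSeries G n))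
      (QuotientGroup.mk'_surjective _), QuotientGroup.map_mk'_self]
  · apply Subgroup.map_injective (Subgroup.subtype_injective (derivedSeries G n))
    rw [Subgroup.map_subtype_commutator, h1, ← MonoidHom.range_eq_map, Subgroup.range_subtype]

end Pool.Agent.HSK
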