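import Pool.Agent.HSK.Dense
import Pool.Agent.HL.Step

/-! # Project HSK: orders with at most three prime divisors, and layered sets over them -/

set_option autoImplicit false

namespace Pool.Agent.HSK

open Pool.Agent.HSS Pool.Agent.HL

/-- Layered finite sets of primes, starting from all sets with at most three elements. -/
inductive Layered3 : Finset ℕ → Prop
  | base (s : Finset ℕ) (h : s.card ≤ 3) : Layered3 s
  | step (s t : Finset ℕ) (hs : Layered3 s) (hst : s ⊆ t)
      (h : ∑ q ∈ t \ s, (1 : ℝ) / ((q : ℝ) - 1) ≤ eps s) : Layered3 t

theorem hs_three (s : Finset ℕ) (h : s.card ≤ 3) : HSfor s := by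
  classical
  intro G _ _ hG
  have hne : Nat.card G ≠ 0 := Nat.card_pos.ne'
  have hpr : ∀ p ∈ (Nat.card G).primeFactors, p.Prime := fun p hp =>
    Nat.prime_of_mem_primeFactors hp
  have hcard : (Nat.card G).primeFactors.card ≤ 3 := (Finset.card_le_card hG).trans h
  by_cases h1 : (Nat.card G).primeFactors.card ≤ 2 ∨
      ((Nat.card G).primeFactors.card = 3 ∧ ¬ ({2, 3} ⊆ (Nat.card G).primeFactors))
  · exact hs_base _ hpr h1 G (Finset.Subset.refl _)
  · push Not at h1
    obtain ⟨h2, h3⟩ := h1
    have h4 : (Nat.card G).primeFactors.card = 3 := by omega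
    have h5 := h3 h4
    have h2m : 2 ∈ (Nat.card G).primeFactors := h5 (by simp)
    have h3m : 3 ∈ (Nat.card G).primeFactors := h5 (by simp)
    -- the third prime
    have h6 : ((Nat.card G).primeFactors \ {2, 3}).card = 1 := by
      rw [Finset.card_sdiff_of_subset h5, h4]
      rfl
    obtain ⟨p, hp⟩ := Finset.card_eq_one.1 h6
    have hpm : p ∈ (Nat.card G).primeFactors \ {2, 3} := by
      rw [hp]
      exact Finset.mem_singleton_self p
    rw [Finset.mem_sdiff] at hpm
    obtain ⟨hp1, hp2⟩ := hpm
    have hpp : p.Prime := hpr p hp1
    have hp23 : p ≠ 2 ∧ p ≠ 3 := by simpa using hp2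
    have heq : (Nat.card G).primeFactors = {2, 3, p} := by
      symm
      apply Finset.eq_of_subset_of_card_le
      · intro x hx
        simp only [Finset.mem_insert, Finset.mem_singleton] at hx
        rcases hx with rfl | rfl | rfl
        · exact h2m
        · exact h3m
        · exact hp1
      · rw [h4, Finset.card_insert_of_notMem, Finset.card_insert_of_notMem, Finset.card_singleton]
        · simpa using hp23.2.symm
        · simp only [Finset.mem_insert, Finset.mem_singleton, not_or]
          exact ⟨by norm_num, hp23.1.symm⟩
    have hp5 : 5 ≤ p := by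
      have h7 := hpp.two_le
      have h8 : p ≠ 4 := by
        rintro rfl
        exact absurd hpp (by norm_num)
      omega
    have hp5' : (5 : ℝ) ≤ p := by exact_mod_cast hp5
    have hkap : kap (Nat.card G).primeFactors = 3 * (p : ℝ) / ((p : ℝ) - 1) := by
      rw [heq]
      unfold kap
      rw [Finset.prod_insert, Finset.prod_insert, Finset.prod_singleton]
      · norm_num
        ring
      · simpa using hp23.2.symm
      · simp only [Finset.mem_insert, Finset.mem_singleton, not_or]
        exact ⟨by norm_num, hp23.1.symm⟩
    have h1G : Nat.card G ≠ 1 := by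
      intro h9
      rw [h9] at h2m
      simp at h2m
    refine hs_of_loc G h1G fun M J hM hJ _ h8 => ?_
    refine loc_all _ M hM J hJ h2m ?_
    rw [hkap]
    rcases lt_or_ge p 7 with h7 | h7
    · right
      have hp6 : p = 5 := by
        have h9 : p ≠ 6 := by
          rintro rfl
          exact absurd hpp (by norm_num)
        omega
      refine ⟨?_, ?_⟩
      · rw [hp6]
        norm_num
      · intro h9
        have h10 := h8 h9
        rw [heq, hp6] at h10
        simp at h10
    · left
      have h7' : (7 : ℝ) ≤ p := by exact_mod_cast h7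
      rw [div_le_iff₀ (by linarith)]
      linarith

theorem hs_layered3 (s : Finset ℕ) (hs : ∀ p ∈ s, p.Prime) (h : Layered3 s) : HSfor s := by
  induction h with
  | base s h => exact hs_three s h
  | step s t _ hst h ih => exact hs_step s t hs hst h (ih fun p hp => hs p (hst hp))

end Pool.Agent.HSK
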