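import Pool.Agent.HSK.Defs

/-! # Project HSK, row HSK-1: residues modulo `M` -/

set_option autoImplicit false

namespace Pool.Agent.HSK

open Pool.Agent.HSS

theorem zm_mem (M r : ℕ) [NeZero M] (hr : r ∣ M) (n : ZMod M) :
    n ∈ AddSubgroup.zmultiples (r : ZMod M) ↔ r ∣ n.val := by
  rw [AddSubgroup.mem_zmultiples_iff]
  constructor
  · rintro ⟨k, hk⟩
    have h1 : ((n.val : ℤ) : ZMod M) = ((k * (r : ℤ) : ℤ) : ZMod M) := by
      push_cast
      rw [ZMod.natCast_zmod_val, ← hk, zsmul_eq_mul]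
    have h2 : (M : ℤ) ∣ k * (r : ℤ) - (n.val : ℤ) :=
      (ZMod.intCast_eq_intCast_iff_dvd_sub _ _ M).1 h1
    have h3 : (r : ℤ) ∣ k * (r : ℤ) - (n.val : ℤ) := (Int.natCast_dvd_natCast.2 hr).trans h2
    have h4 : (r : ℤ) ∣ (n.val : ℤ) := (dvd_sub_right (Dvd.intro_left k rfl)).1 h3
    exact Int.natCast_dvd_natCast.1 h4
  · rintro ⟨c, hc⟩
    refine ⟨(c : ℤ), ?_⟩
    rw [zsmul_eq_mul, ← ZMod.natCast_zmod_val n, hc]
    push_cast
    ring

theorem zm_index (M r : ℕ) [NeZero M] (hr : r ∣ M) :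
    (AddSubgroup.zmultiples (r : ZMod M)).index = r := by
  have hM : 0 < M := Nat.pos_of_ne_zero (NeZero.ne M)
  have h1 : Nat.card (AddSubgroup.zmultiples (r : ZMod M)) = M / r := by
    rw [Nat.card_zmultiples, ZMod.addOrderOf_coe r (NeZero.ne M), Nat.gcd_eq_right hr]
  have h2 := AddSubgroup.card_mul_index (AddSubgroup.zmultiples (r : ZMod M))
  rw [h1, Nat.card_zmod] at h2
  have h3 : M / r * r = M := Nat.div_mul_cancel hr
  have h4 : 0 < M / r := Nat.div_pos (Nat.le_of_dvd hM hr) (Nat.pos_of_dvd_of_pos hr hM)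
  exact Nat.eq_of_mul_eq_mul_left h4 (h2.trans h3.symm)

/-- (the number of the `n` with `gcd (n, M) = d` is the totient of `M / d`) -/
theorem card_mult (M : ℕ) [NeZero M] (J : Set ℕ) (hJ : ∀ r ∈ J, r ∣ M) :
    ({n : ZMod M | ∃ r ∈ J, r ∣ n.val}.ncard : ℝ) / (M : ℝ) = del M J := by
  classical
  have hM : M ≠ 0 := NeZero.ne M
  have h1 : {n : ZMod M | ∃ r ∈ J, r ∣ n.val}.ncard =
      ((Finset.range M).filter (fun k => ∃ r ∈ J, r ∣ k)).card := by
    rw [← Set.ncard_image_of_injective _ (ZMod.val_injective M), ← Set.ncard_coe_finset]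
    congr 1
    ext k
    simp only [Set.mem_image, Set.mem_ofPred_eq, Finset.coe_filter, Finset.mem_range]
    constructor
    · rintro ⟨n, hn, rfl⟩
      exact ⟨ZMod.val_lt n, hn⟩
    · rintro ⟨hk, hn⟩
      refine ⟨(k : ZMod M), ?_, ZMod.val_natCast_of_lt hk⟩
      rw [ZMod.val_natCast_of_lt hk]
      exact hn
  have h2 : ((Finset.range M).filter (fun k => ∃ r ∈ J, r ∣ k)).card =
      ∑ d ∈ M.divisors with ∃ q ∈ J, q ∣ d, (M / d).totient := by
    rw [Finset.card_eq_sum_card_fiberwise (f := fun k => M.gcd k)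
      (t := M.divisors.filter (fun d => ∃ q ∈ J, q ∣ d))]
    · refine Finset.sum_congr rfl fun d hd => ?_
      obtain ⟨hd1, hd2⟩ := Finset.mem_filter.1 hd
      rw [Nat.totient_div_of_dvd (Nat.dvd_of_mem_divisors hd1)]
      congr 1
      ext k
      simp only [Finset.mem_filter, Finset.mem_range]
      constructor
      · rintro ⟨⟨h1, _⟩, h3⟩
        exact ⟨h1, h3⟩
      · rintro ⟨h1, h3⟩
        refine ⟨⟨h1, ?_⟩, h3⟩
        obtain ⟨q, hq, hqd⟩ := hd2
        exact ⟨q, hq, hqd.trans (h3 ▸ Nat.gcd_dvd_right M k)⟩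
    · intro k hk
      have hk' := Finset.mem_filter.1 (Finset.mem_coe.1 hk)
      obtain ⟨_, r, hr, hrk⟩ := hk'
      refine Finset.mem_coe.2 (Finset.mem_filter.2 ⟨Nat.mem_divisors.2
        ⟨Nat.gcd_dvd_left M k, hM⟩, r, hr, Nat.dvd_gcd (hJ r hr) hrk⟩)
  unfold del om
  rw [h1, h2, Nat.cast_sum, Finset.sum_div]

end Pool.Agent.HSK
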